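import Pool.Agent.L7h91.IR.Forms
import Pool.Agent.TH3.IR.Window

/-!
# Allowed numbers `M` near `2 k ^ ((r - 1) / r)`
-/

set_option autoImplicit false

namespace Pool.Agent.L7h91.IR

open Finset

/-- the intermediate value theorem for `M - 4 (2 k / M) ^ p` -/
theorem ivt {k a b N : ℝ} (p : ℕ) (ha : 0 < a) (hab : a ≤ b) (h1 : a - 4 * (2 * k / a) ^ p ≤ N)
    (h2 : N ≤ b - 4 * (2 * k / b) ^ p) :
    ∃ M, a ≤ M ∧ M ≤ b ∧ M - 4 * (2 * k / M) ^ p = N := by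
  have hc : ContinuousOn (fun M : ℝ => M - 4 * (2 * k / M) ^ p) (Set.Icc a b) := by
    apply ContinuousOn.sub continuousOn_id
    apply ContinuousOn.mul continuousOn_const
    apply ContinuousOn.pow
    apply ContinuousOn.div continuousOn_const continuousOn_id
    intro x hx
    exact (lt_of_lt_of_le ha hx.1).ne'
  obtain ⟨M, hM, hMN⟩ := intermediate_value_Icc hab hc ⟨h1, h2⟩
  exact ⟨M, hM.1, hM.2, hMN⟩

/-- the root -/
theorem root {p k : ℕ} (hk : 2 ^ (p + 2) ≤ k) : ∃ x : ℝ, 2 ≤ x ∧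
    x = (k : ℝ) ^ ((1 : ℝ) / ((p + 2 : ℕ) : ℝ)) ∧ x ^ (p + 2) = k ∧
      x ^ (p + 1) = (k : ℝ) ^ ((((p + 2 : ℕ) : ℝ) - 1) / ((p + 2 : ℕ) : ℝ)) := by
  have h1 : 1 ≤ k := le_trans (Nat.one_le_pow _ _ (by norm_num)) hk
  obtain ⟨x, hx0, hx1, hx2, hx3⟩ := Pool.Agent.TH3.IR.rho_facts (n := p + 1) h1
  refine ⟨x, ?_, hx1, hx2, hx3⟩
  by_contra hcon
  push Not at hcon
  have h2 : x ^ (p + 1 + 1) < 2 ^ (p + 1 + 1) := pow_lt_pow_left₀ hcon hx0.le (by omega)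
  rw [hx2] at h2
  have h3 : ((2 ^ (p + 2) : ℕ) : ℝ) ≤ k := by exact_mod_cast hk
  push_cast at h3
  linarith

theorem x_le {p k : ℕ} (hk : k ≤ 3 ^ (p + 2)) {x : ℝ} (hx : x ^ (p + 2) = k) :
    x ≤ 3 := by
  by_contra hcon
  push Not at hcon
  have h2 : (3 : ℝ) ^ (p + 2) < x ^ (p + 2) := pow_lt_pow_left₀ hcon (by norm_num) (by omega)
  rw [hx] at h2
  have h3 : (k : ℝ) ≤ ((3 ^ (p + 2) : ℕ) : ℝ) := by exact_mod_cast hk
  push_cast at h3
  linarith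

theorem exists_upper {p k : ℕ} (hp : 1 ≤ p) (hk : 2 ^ (p + 2) ≤ k) (hk3 : k ≤ 3 ^ (p + 2))
    {x : ℝ} (hx2 : 2 ≤ x) (hx : x ^ (p + 2) = k) :
    ∃ M, Upper (p + 2) k M ∧ M ≤ 2 * x ^ (p + 1) + 2 / ((p : ℝ) + 2) := by
  have hx3 := x_le hk3 hx
  have hx0 : 0 < x := by linarith
  have hp1 : (1 : ℝ) ≤ p := by exact_mod_cast hp
  have hp0 : (0 : ℝ) < (p : ℝ) + 2 := by linarith
  obtain ⟨δ, hδ⟩ : ∃ δ : ℝ, δ = 2 / ((p : ℝ) + 2) := ⟨_, rfl⟩
  have hδ0 : 0 < δ := by rw [hδ]; positivity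
  have hδp : δ * ((p : ℝ) + 2) = 2 := by rw [hδ]; field_simp
  obtain ⟨M0, hM0⟩ : ∃ M0 : ℝ, M0 = 2 * x ^ (p + 1) := ⟨_, rfl⟩
  have hM00 : 0 < M0 := by rw [hM0]; positivity
  have hk0 : (0 : ℝ) < k := by rw [← hx]; positivity
  have hM0k : M0 ≤ k := by
    rw [hM0, ← hx]
    have : 0 < x ^ (p + 1) := by positivity
    calc 2 * x ^ (p + 1) ≤ x * x ^ (p + 1) := mul_le_mul_of_nonneg_right hx2 this.le
      _ = x ^ (p + 2) := by ring
  have hq : 2 * (k : ℝ) / M0 = x := by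
    rw [hM0, ← hx]
    field_simp
    ring
  -- the values
  obtain ⟨N, hN⟩ : ∃ N : ℤ, N = ⌈M0 - 4 * x ^ p⌉ := ⟨_, rfl⟩
  have hN1 : M0 - 4 * x ^ p ≤ N := by rw [hN]; exact Int.le_ceil _
  have hN2 : (N : ℝ) < M0 - 4 * x ^ p + 1 := by rw [hN]; exact Int.ceil_lt_add_one _
  have hxp : (2 : ℝ) ^ p ≤ x ^ p := pow_le_pow_left₀ (by norm_num) hx2 p
  -- at `k`
  have hfk : (N : ℝ) ≤ k - 4 * (2 * (k : ℝ) / k) ^ p := by
    have e1 : 2 * (k : ℝ) / k = 2 := by field_simp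
    rw [e1]
    have h1 : N ≤ ((k : ℤ) - 4 * 2 ^ p : ℤ) := by
      rw [hN, Int.ceil_le]
      push_cast
      linarith
    have h2 : (N : ℝ) ≤ (((k : ℤ) - 4 * 2 ^ p : ℤ) : ℝ) := by exact_mod_cast h1
    push_cast at h2
    exact h2
  -- at `M0 + δ`
  have hfd : (N : ℝ) ≤ (M0 + δ) - 4 * (2 * (k : ℝ) / (M0 + δ)) ^ p := by
    obtain ⟨y, hy⟩ : ∃ y : ℝ, y = 2 * (k : ℝ) / (M0 + δ) := ⟨_, rfl⟩
    rw [← hy]
    obtain ⟨ε, hε⟩ : ∃ ε : ℝ, ε = δ / M0 := ⟨_, rfl⟩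
    have hε0 : 0 < ε := by rw [hε]; positivity
    have hεM : ε * M0 = δ := by rw [hε]; field_simp
    have hy1 : y * (1 + ε) = x := by
      rw [hy, ← hq, hε]
      field_simp
    have hy0 : 0 < y := by rw [hy]; positivity
    have h1 : y ^ p * (1 + p * ε) ≤ x ^ p := by
      rw [← hy1, mul_pow]
      apply mul_le_mul_of_nonneg_left _ (by positivity)
      exact one_add_mul_le_pow (by linarith) p
    -- `4 (x ^ p - y ^ p) ≥ (4 / 7) p δ`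
    have h2 : 0 < 1 + (p : ℝ) * ε := by positivity
    have h3 : x ^ p * (p * ε) ≤ (x ^ p - y ^ p) * (1 + p * ε) := by nlinarith
    have h4 : (1 : ℝ) / 7 * (p * δ) * (1 + p * ε) ≤ x ^ p * (p * ε) := by
      have h5 : p * δ ≤ 2 := by linarith [hδp]
      have h6 : (2 : ℝ) ≤ x ^ p := by
        calc (2 : ℝ) = 2 ^ 1 := by norm_num
          _ ≤ 2 ^ p := pow_le_pow_right₀ (by norm_num) hp
          _ ≤ x ^ p := hxp
      have h7 : M0 * (1 + p * ε) = M0 + p * δ := by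
        rw [← hεM]
        ring
      have h8 : M0 + p * δ ≤ 7 * x ^ p := by
        have h9 : M0 = 2 * x * x ^ p := by rw [hM0]; ring
        have h10 : 2 * x * x ^ p ≤ 6 * x ^ p := by nlinarith
        linarith
      have h11 : (p * δ) * (M0 * (1 + p * ε)) ≤ (p * δ) * (7 * x ^ p) := by
        rw [h7]
        exact mul_le_mul_of_nonneg_left h8 (by positivity)
      have h12 : p * δ * (7 * x ^ p) = M0 * (7 * (x ^ p * (p * ε))) := by
        rw [← hεM]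
        ring
      rw [h12] at h11
      have h13 : p * δ * (M0 * (1 + p * ε)) = M0 * (p * δ * (1 + p * ε)) := by ring
      rw [h13] at h11
      have h14 := le_of_mul_le_mul_left h11 hM00
      linarith
    have h15 : (1 : ℝ) / 7 * (p * δ) ≤ x ^ p - y ^ p :=
      le_of_mul_le_mul_right (h4.trans h3) h2
    have h16 : (1 : ℝ) ≤ δ + 4 / 7 * (p * δ) := by
      have h17 : δ * (p : ℝ) = 2 - 2 * δ := by linarith
      have h18 : δ ≤ 2 / 3 := by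
        rw [hδ]
        apply div_le_div_of_nonneg_left (by norm_num) (by norm_num) (by linarith)
      rw [mul_comm (p : ℝ) δ, h17]
      linarith
    linarith
  -- the intermediate value
  have hmin : ∃ b, M0 ≤ b ∧ b ≤ k ∧ b ≤ M0 + δ ∧ (N : ℝ) ≤ b - 4 * (2 * (k : ℝ) / b) ^ p := by
    by_cases h : (k : ℝ) ≤ M0 + δ
    · exact ⟨k, hM0k, le_refl _, h, hfk⟩
    · push Not at h
      exact ⟨M0 + δ, by linarith, h.le, le_refl _, hfd⟩
  obtain ⟨b, hb1, hb2, hb3, hb4⟩ := hmin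
  obtain ⟨M, h1, h2, h3⟩ := ivt (k := k) (a := M0) (b := b) (N := N) p hM00 hb1
    (by rw [hq]; exact hN1) hb4
  refine ⟨M, ⟨by linarith, by linarith, ?_, Or.inr ⟨N, ?_⟩⟩, ?_⟩
  · have e1 : p + 2 - 1 = p + 1 := by omega
    rw [e1]
    calc (2 : ℝ) ^ (p + 2) * (k : ℝ) ^ (p + 1) = M0 ^ (p + 2) := by
          rw [hM0, ← hx, mul_pow, ← pow_mul, ← pow_mul]
          congr 2
          ring
      _ ≤ M ^ (p + 2) := pow_le_pow_left₀ hM00.le h1 _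
  · rw [Nat.add_sub_cancel]
    exact h3
  · rw [← hM0, ← hδ]
    linarith

theorem exists_lower {p k : ℕ} (hk3 : k ≤ 3 ^ (p + 2))
    {x : ℝ} (hx2 : 2 ≤ x) (hx : x ^ (p + 2) = k) :
    ∃ M, Lower (p + 2) k M ∧ 2 * x ^ (p + 1) - 2 / ((p : ℝ) + 2) ≤ M := by
  have hx3 := x_le hk3 hx
  have hx0 : 0 < x := by linarith
  have hp1 : (0 : ℝ) ≤ p := Nat.cast_nonneg _
  have hp0 : (0 : ℝ) < (p : ℝ) + 2 := by linarith
  obtain ⟨δ, hδ⟩ : ∃ δ : ℝ, δ = 2 / ((p : ℝ) + 2) := ⟨_, rfl⟩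
  have hδ0 : 0 < δ := by rw [hδ]; positivity
  have hδp : δ * ((p : ℝ) + 2) = 2 := by rw [hδ]; field_simp
  have hδ1 : δ ≤ 1 := by
    rw [hδ, div_le_one hp0]
    linarith
  obtain ⟨M0, hM0⟩ : ∃ M0 : ℝ, M0 = 2 * x ^ (p + 1) := ⟨_, rfl⟩
  have hM00 : 0 < M0 := by rw [hM0]; positivity
  have hM02 : 4 ≤ M0 := by
    rw [hM0]
    have h1 : (2 : ℝ) ^ 1 ≤ x ^ (p + 1) := by
      calc (2 : ℝ) ^ 1 ≤ 2 ^ (p + 1) := pow_le_pow_right₀ (by norm_num) (by omega)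
        _ ≤ x ^ (p + 1) := pow_le_pow_left₀ (by norm_num) hx2 _
    linarith
  have hk0 : (0 : ℝ) < k := by rw [← hx]; positivity
  have hM0k : M0 ≤ k := by
    rw [hM0, ← hx]
    have : 0 < x ^ (p + 1) := by positivity
    calc 2 * x ^ (p + 1) ≤ x * x ^ (p + 1) := mul_le_mul_of_nonneg_right hx2 this.le
      _ = x ^ (p + 2) := by ring
  have hq : 2 * (k : ℝ) / M0 = x := by
    rw [hM0, ← hx]
    field_simp
    ring
  obtain ⟨N, hN⟩ : ∃ N : ℤ, N = ⌊M0 - 4 * x ^ p⌋ := ⟨_, rfl⟩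
  have hN1 : (N : ℝ) ≤ M0 - 4 * x ^ p := by rw [hN]; exact Int.floor_le _
  have hN2 : M0 - 4 * x ^ p - 1 < N := by rw [hN]; exact Int.sub_one_lt_floor _
  have hN0 : (0 : ℝ) ≤ N := by
    have h1 : 0 ≤ N := by
      rw [hN]
      apply Int.floor_nonneg.2
      rw [hM0]
      have : 0 < x ^ p := by positivity
      have h2 : 2 * x ^ (p + 1) = 2 * x * x ^ p := by ring
      rw [h2]
      nlinarith
    exact_mod_cast h1
  have hfd : (M0 - δ) - 4 * (2 * (k : ℝ) / (M0 - δ)) ^ p ≤ N := by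
    have hMδ : 0 < M0 - δ := by linarith
    obtain ⟨y, hy⟩ : ∃ y : ℝ, y = 2 * (k : ℝ) / (M0 - δ) := ⟨_, rfl⟩
    rw [← hy]
    obtain ⟨ε, hε⟩ : ∃ ε : ℝ, ε = δ / M0 := ⟨_, rfl⟩
    have hε0 : 0 < ε := by rw [hε]; positivity
    have hεM : ε * M0 = δ := by rw [hε]; field_simp
    have hy1 : x * (1 + ε) ≤ y := by
      rw [hy, le_div_iff₀ hMδ, ← hq, hε]
      have h5 : 2 * (k : ℝ) / M0 * (1 + δ / M0) * (M0 - δ) = 2 * k * (1 - (δ / M0) ^ 2) := by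
        field_simp
        ring
      rw [h5]
      have h6 : 0 ≤ (δ / M0) ^ 2 := by positivity
      nlinarith
    have h1 : x ^ p * (1 + p * ε) ≤ y ^ p := by
      calc x ^ p * (1 + p * ε) ≤ x ^ p * (1 + ε) ^ p := by
            apply mul_le_mul_of_nonneg_left _ (by positivity)
            exact one_add_mul_le_pow (by linarith) p
        _ = (x * (1 + ε)) ^ p := by rw [mul_pow]
        _ ≤ y ^ p := pow_le_pow_left₀ (by positivity) hy1 p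
    have h2 : 4 * (x ^ p * (p * ε)) * x = 2 * (p * δ) := by
      have h3 : δ = ε * (2 * x ^ (p + 1)) := by rw [← hM0]; exact hεM.symm
      rw [h3]
      ring
    have h4 : 2 / 3 * (p * δ) ≤ 4 * (x ^ p * (p * ε)) := by
      have h5 : 0 ≤ 4 * (x ^ p * (p * ε)) := by positivity
      nlinarith
    have h6 : (1 : ℝ) ≤ δ + 2 / 3 * (p * δ) := by
      have h17 : δ * (p : ℝ) = 2 - 2 * δ := by linarith
      rw [mul_comm (p : ℝ) δ, h17]
      linarith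
    linarith
  obtain ⟨M, h1, h2, h3⟩ := ivt (k := k) (a := M0 - δ) (b := M0) (N := N) p (by linarith)
    (by linarith) hfd (by rw [hq]; exact hN1)
  have hM1 : 0 < M := by linarith
  refine ⟨M, ⟨hM1, by linarith, ?_, ?_, Or.inr ⟨N, ?_⟩⟩, ?_⟩
  · have e1 : p + 2 - 1 = p + 1 := by omega
    rw [e1]
    calc M ^ (p + 2) ≤ M0 ^ (p + 2) := pow_le_pow_left₀ hM1.le h2 _
      _ = (2 : ℝ) ^ (p + 2) * (k : ℝ) ^ (p + 1) := by
          rw [hM0, ← hx, mul_pow, ← pow_mul, ← pow_mul]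
          congr 2
          ring
  · rw [Nat.add_sub_cancel]
    linarith
  · rw [Nat.add_sub_cancel]
    exact h3
  · rw [← hM0, ← hδ]
    exact h1

end Pool.Agent.L7h91.IR
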