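import Pool.Agent.L7h91.IR.Emp

/-!
# Emptiness with one more flattening

Before the last nodal step the first direction is flattened by one unit. This makes the set of the
possible numbers `M` much denser.
-/

set_option autoImplicit false

namespace Pool.Agent.L7h91.IR

open Finset Pool.Agent.TH603.EL Pool.Agent.TH3.IR

/-- the nodal step and the flattening in the same direction, with a given integer `v` -/
theorem nodalv {ι σ : Type} [Fintype σ] [DecidableEq σ] {w : ι → ℕ} {L R : ℝ}
    {μ ν : σ → ℝ} (hpos : ∀ i, 0 < μ i + ν i)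
    (j l : σ) (hjl : l ≠ j)
    (hr : Ready w L R μ ν j) {ρ : ℝ} (hρ : 2 ≤ ρ) (v : ℤ)
    (hv0 : 2 * (μ j + ν j) * ρ - 4 * (μ j + ν j) < v) (hv1 : (v : ℝ) < 2 * (μ j + ν j) * ρ)
    (H : ∀ (L' R' : ℝ) (μ' ν' : σ → ℝ), (∀ i, 0 ≤ μ' i) → (∀ i, 0 ≤ ν' i) →
      R' - L' = ρ * (R - L) →
      (∀ i, μ' i + ν' i =
        Function.update (fun i => ρ * (μ i + ν i)) j (ρ ^ 2 * (μ j + ν j)) i) →
      ν' l = (μ l + ν l) / (2 * (μ j + ν j)) * v → EmpS w (RegS L' R' μ' ν')) :
    EmpS w (RegS L R μ ν) := by
  obtain ⟨s, hs⟩ : ∃ s : σ → ℝ, ∀ i, μ i + ν i = s i := ⟨fun i => μ i + ν i, fun i => rfl⟩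
  have hs0 : ∀ i, 0 < s i := fun i => by rw [← hs]; exact hpos i
  simp only [hs] at hv0 hv1
  have hsj : 0 < s j := hs0 j
  obtain ⟨τ, hτ⟩ : ∃ τ : ℝ, τ = (2 * s j * ρ - v) / (4 * s j) := ⟨_, rfl⟩
  have hτv : 4 * τ * s j = 2 * s j * ρ - v := by
    rw [hτ]
    field_simp
  have h0 : 0 < τ := by
    rw [hτ]
    apply div_pos (by linarith) (by linarith)
  have h1 : τ < 1 := by
    rw [hτ, div_lt_one (by linarith)]
    linarith
  apply hr τ h0 h1
  simp only [hs]
  have e1 : ∀ i, Function.update (fun i => 2 * τ * s i) j (4 * τ * s j) i +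
      Function.update (fun i => 2 * (1 - τ) * s i) j (4 * (1 - τ) * s j) i =
      Function.update (fun i => 2 * s i) j (4 * s j) i := by
    intro i
    by_cases hi : i = j
    · subst hi
      simp only [Function.update_self]
      ring
    · simp only [Function.update_of_ne hi]
      ring
  refine flat' (lam := ρ / 2) ?_ ?_ ?_ j v ?_ ?_ ?_
  · intro i
    by_cases hi : i = j
    · subst hi
      rw [Function.update_self]
      positivity
    · rw [Function.update_of_ne hi]
      have := hs0 i
      positivity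
  · intro i
    have h2 : 0 ≤ 1 - τ := by linarith
    by_cases hi : i = j
    · subst hi
      rw [Function.update_self]
      positivity
    · rw [Function.update_of_ne hi]
      have := hs0 i
      positivity
  · intro i
    rw [e1]
    by_cases hi : i = j
    · subst hi
      rw [Function.update_self]
      positivity
    · rw [Function.update_of_ne hi]
      have := hs0 i
      positivity
  · rw [Function.update_self]
    nlinarith
  · rw [e1, Function.update_self, Function.update_self]
    linarith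
  · intro L' R' μ' ν' hμ' hν' hW' hsum' hleft
    have hsum2 : ∀ i, μ' i + ν' i = Function.update (fun i => ρ * s i) j (ρ ^ 2 * s j) i := by
      intro i
      rw [hsum']
      by_cases hi : i = j
      · subst hi
        simp only [Function.update_self]
        ring
      · simp only [Function.update_of_ne hi]
        ring
    apply H L' R' μ' ν' hμ' hν'
    · rw [hW']
      ring
    · simpa only [hs] using hsum2
    · rw [hs, hs]
      have h3 := hsum2 l
      have h4 := hleft l hjl
      rw [Function.update_of_ne hjl] at h3 h4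
      have h5 : ν' l = ρ * s l - 2 * τ * s l := by linarith
      rw [h5, hτ]
      field_simp
      ring

/-- the last flattening, after a reflection -/
theorem lastR {ι σ : Type} [Fintype σ] [DecidableEq σ] {w : ι → ℕ} {L R : ℝ}
    {μ ν : σ → ℝ} (hμ : ∀ i, 0 ≤ μ i) (hν : ∀ i, 0 ≤ ν i) (hpos : ∀ i, 0 < μ i + ν i)
    (l : σ) {M : ℝ} (hM : μ l + ν l ≤ M) (N : ℤ) (hN : M - ν l = N)
    (H : Asm.Good w (M / (μ l + ν l) * (R - L))
      (Function.update (fun i => M / (μ l + ν l) * (μ i + ν i)) l
        ((M / (μ l + ν l)) ^ 2 * (μ l + ν l)))) :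
    EmpS w (RegS L R μ ν) := by
  have hl0 : μ l + ν l ≠ 0 := (hpos l).ne'
  have h1 : EmpS w (RegS (-R) (-L) ν μ) := by
    refine flat' (lam := M / (μ l + ν l)) hν hμ (fun i => by rw [add_comm]; exact hpos i) l N
      ?_ ?_ ?_
    · rw [← hN]
      linarith
    · rw [← hN, add_comm (ν l) (μ l)]
      field_simp
      ring
    · intro L' R' μ' ν' hμ' hν' hW' hsum' _
      apply H L' R' μ' ν' hμ' hν'
      · rw [hW']
        ring
      · intro i
        rw [hsum']
        simp only [add_comm (ν _) (μ _)]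
  refine h1.comap (-1) (Or.inr rfl) 0 0 ?_
  rintro ⟨x, y⟩ ⟨k1, k2, k3⟩
  simp only at k1 k2 k3
  refine ⟨k1, ?_, ?_⟩
  · simp only [Pi.zero_apply, zero_mul, Finset.sum_const_zero, add_zero]
    push_cast
    linarith
  · simp only [Pi.zero_apply, zero_mul, Finset.sum_const_zero, add_zero]
    push_cast
    linarith

/-- the induction over the directions; `l` is the first and `q` the last one, whose treatment is
the hypothesis `Base` -/
theorem run_gen {ι σ : Type} [Fintype σ] [DecidableEq σ] {w : ι → ℕ} {β : ℝ}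
    (hβ : 2 ≤ β) (d : ℕ) (l q : σ) (hlq : l ≠ q)
    (Base : ∀ T : Finset σ, l ∉ T → q ∉ T → T.card + 2 = Fintype.card σ →
      ∀ (L R : ℝ) (μ ν : σ → ℝ), (∀ i, 0 ≤ μ i) → (∀ i, 0 ≤ ν i) →
        R - L = 2 * d * β ^ T.card → (∀ i, μ i + ν i = sl β l T i) → (∃ v : ℤ, ν l = v) →
        EmpS w (RegS L R μ ν)) (c : ℕ) :
    ∀ T : Finset σ, l ∉ T → q ∉ T → T.card + c + 2 = Fintype.card σ →
      ∀ (L R : ℝ) (μ ν : σ → ℝ), (∀ i, 0 ≤ μ i) → (∀ i, 0 ≤ ν i) →
        R - L = 2 * d * β ^ T.card → (∀ i, μ i + ν i = sl β l T i) → (∃ v : ℤ, ν l = v) →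
        (∀ j, j ≠ l → j ∉ T → Ready w L R μ ν j) → EmpS w (RegS L R μ ν) := by
  have hβ0 : 0 < β := by linarith
  have hβ1 : 1 ≤ β := by linarith
  induction c with
  | zero =>
    intro T hl hq hT L R μ ν hμ hν hW hs hvl _
    exact Base T hl hq (by omega) L R μ ν hμ hν hW hs hvl
  | succ c ih =>
    intro T hl hq hT L R μ ν hμ hν hW hs hvl hready
    have hpos : ∀ i, 0 < μ i + ν i := fun i => by rw [hs]; exact sl_pos hβ0 l T i
    obtain ⟨j, hj, hjl, hjq⟩ : ∃ j, j ∉ T ∧ j ≠ l ∧ j ≠ q := by
      by_contra hcon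
      push Not at hcon
      have h1 : (Finset.univ : Finset σ) ⊆ insert l (insert q T) := by
        intro i _
        rw [Finset.mem_insert, Finset.mem_insert]
        by_cases h2 : i ∈ T
        · exact Or.inr (Or.inr h2)
        · by_cases h3 : i = l
          · exact Or.inl h3
          · exact Or.inr (Or.inl (hcon i h2 h3))
      have h2 := Finset.card_le_card h1
      have h3 := Finset.card_insert_le l (insert q T)
      have h4 := Finset.card_insert_le q T
      rw [Finset.card_univ] at h2
      omega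
    have hsj : μ j + ν j = 2 * β ^ T.card := by
      rw [hs]
      unfold sl
      rw [if_neg hjl, if_neg hj]
    have hsl : μ l + ν l = 4 * β ^ T.card := by
      rw [hs]
      unfold sl
      rw [if_pos rfl]
    have hone : 1 ≤ μ j + ν j := by
      rw [hsj]
      have := one_le_pow₀ hβ1 (n := T.card)
      linarith
    have hc : (insert j T).card = T.card + 1 := Finset.card_insert_of_notMem hj
    refine nodal' hμ hν hpos j l (Ne.symm hjl) hone (hready j hjl hj) hβ ?_
    intro L' R' μ' ν' hμ' hν' hW' hs' hv'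
    have hs2 : ∀ i, μ' i + ν' i = sl β l (insert j T) i := by
      intro i
      rw [hs']
      by_cases hi : i = j
      · subst hi
        rw [Function.update_self, hsj]
        unfold sl
        rw [if_neg hjl, if_pos (Finset.mem_insert_self i T), hc]
        ring
      · rw [Function.update_of_ne hi, hs]
        unfold sl
        rw [hc]
        by_cases hil : i = l
        · rw [if_pos hil, if_pos hil]
          ring
        · rw [if_neg hil, if_neg hil]
          by_cases hiT : i ∈ T
          · rw [if_pos hiT, if_pos (Finset.mem_insert_of_mem hiT)]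
            ring
          · have hiT' : i ∉ insert j T := by rw [Finset.mem_insert]; tauto
            rw [if_neg hiT, if_neg hiT']
            ring
    refine ih (insert j T) ?_ ?_ (by omega) L' R' μ' ν' hμ' hν' ?_ hs2 ?_ ?_
    · rw [Finset.mem_insert]
      push Not
      exact ⟨Ne.symm hjl, hl⟩
    · rw [Finset.mem_insert]
      push Not
      exact ⟨Ne.symm hjq, hq⟩
    · rw [hW', hW, hc]
      ring
    · exact hv' (by rw [hsl, hsj]; ring)
    · intro i hil hiT
      refine ready_of hμ' hν' (fun i => by rw [hs2]; exact sl_pos hβ0 l _ i) i ?_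
      rw [hs2]
      unfold sl
      rw [if_neg hil, if_neg hiT, hc]
      have : β ^ 1 ≤ β ^ (T.card + 1) := pow_le_pow_right₀ hβ1 (by omega)
      rw [pow_one] at this
      linarith

/-- the last nodal step, with a flattening in the first direction before and after it -/
theorem base3 {ι σ : Type} [Fintype ι] [Fintype σ] [DecidableEq σ] {w : ι → ℕ} {β M A : ℝ}
    (hβ : 2 ≤ β) (hβM : M * β = 2 * Fintype.card ι)
    (hM : 4 * β ^ (Fintype.card σ - 1) * Fintype.card ι ≤ M ^ 2)
    (hA : A = 4 * β ^ (Fintype.card σ - 2) + 1) (v N : ℤ)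
    (hvN : A * (M - v) = (A - 1) * N) (hv0 : (β - 2) * A < v) (hv1 : (v : ℝ) < β * A)
    (hMA : β * A ≤ M)
    (d : ℕ) (hw : M / 2 * d < ∑ i, (w i : ℝ)) (l q : σ) (hlq : l ≠ q) :
    ∀ T : Finset σ, l ∉ T → q ∉ T → T.card + 2 = Fintype.card σ →
      ∀ (L R : ℝ) (μ ν : σ → ℝ), (∀ i, 0 ≤ μ i) → (∀ i, 0 ≤ ν i) →
        R - L = 2 * d * β ^ T.card → (∀ i, μ i + ν i = sl β l T i) → (∃ v : ℤ, ν l = v) →
        EmpS w (RegS L R μ ν) := by
  have hβ0 : 0 < β := by linarith
  have hβ1 : 1 ≤ β := by linarith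
  intro T hl hq hT L R μ ν hμ hν hW hs hvl
  obtain ⟨v0, hvl⟩ := hvl
  have hpos : ∀ i, 0 < μ i + ν i := fun i => by rw [hs]; exact sl_pos hβ0 l T i
  have hcard1 : Fintype.card σ - 1 = T.card + 1 := by omega
  have hcard2 : Fintype.card σ - 2 = T.card := by omega
  rw [hcard1] at hM
  rw [hcard2] at hA
  obtain ⟨a, ha⟩ : ∃ a : ℝ, a = 4 * β ^ T.card := ⟨_, rfl⟩
  have ha1 : A = a + 1 := by rw [hA, ha]
  have ha4 : 4 ≤ a := by
    rw [ha]
    have := one_le_pow₀ hβ1 (n := T.card)
    linarith
  have ha0 : 0 < a := by linarith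
  have hA0 : 0 < A := by linarith
  have hsq : μ q + ν q = a / 2 := by
    rw [hs, ha]
    unfold sl
    rw [if_neg (Ne.symm hlq), if_neg hq]
    ring
  have hsl : μ l + ν l = a := by
    rw [hs, ha]
    unfold sl
    rw [if_pos rfl]
  have hsi : ∀ i, i ≠ l → i ≠ q → μ i + ν i = β * a / 2 := by
    intro i h1 h2
    have h0 : i ∈ T := by
      by_contra h3
      have h4 : (insert i (insert l (insert q T))).card = T.card + 3 := by
        rw [Finset.card_insert_of_notMem, Finset.card_insert_of_notMem,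
          Finset.card_insert_of_notMem hq]
        · simp [hl, hlq]
        · simp [h1, h2, h3]
      have h5 := Finset.card_le_univ (insert i (insert l (insert q T)))
      omega
    rw [hs, ha]
    unfold sl
    rw [if_neg h1, if_pos h0]
    ring
  have hM0 : 0 < M := by
    have : 0 < β * A := by positivity
    linarith
  -- the first flattening
  refine flat' (lam := A / a) hμ hν hpos l (v0 + 1) ?_ ?_ ?_
  · push_cast
    linarith
  · push_cast
    rw [← hvl, hsl]
    field_simp
    linarith
  intro L1 R1 μ1 ν1 hμ1 hν1 hW1 hs1 _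
  have hs1l : μ1 l + ν1 l = A ^ 2 / a := by
    rw [hs1, Function.update_self, hsl]
    field_simp
  have hs1q : μ1 q + ν1 q = A / 2 := by
    rw [hs1, Function.update_of_ne (Ne.symm hlq), hsq]
    field_simp
  have hs1i : ∀ i, i ≠ l → i ≠ q → μ1 i + ν1 i = β * A / 2 := by
    intro i h1 h2
    rw [hs1, Function.update_of_ne h1, hsi i h1 h2]
    field_simp
  have hpos1 : ∀ i, 0 < μ1 i + ν1 i := by
    intro i
    by_cases h1 : i = l
    · subst h1
      rw [hs1l]
      positivity
    · by_cases h2 : i = q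
      · subst h2
        rw [hs1q]
        positivity
      · rw [hs1i i h1 h2]
        positivity
  -- the nodal step
  refine nodalv hpos1 q l hlq (ready_of hμ1 hν1 hpos1 q (by rw [hs1q]; linarith)) hβ v ?_ ?_ ?_
  · rw [hs1q]
    linarith
  · rw [hs1q]
    linarith
  intro L2 R2 μ2 ν2 hμ2 hν2 hW2 hs2 hνl
  have hs2l : μ2 l + ν2 l = β * A ^ 2 / a := by
    rw [hs2, Function.update_of_ne hlq, hs1l]
    ring
  have hs2q : μ2 q + ν2 q = β ^ 2 * A / 2 := by
    rw [hs2, Function.update_self, hs1q]
    ring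
  have hs2i : ∀ i, i ≠ l → i ≠ q → μ2 i + ν2 i = β ^ 2 * A / 2 := by
    intro i h1 h2
    rw [hs2, Function.update_of_ne h2, hs1i i h1 h2]
    ring
  have hpos2 : ∀ i, 0 < μ2 i + ν2 i := by
    intro i
    by_cases h1 : i = l
    · subst h1
      rw [hs2l]
      positivity
    · by_cases h2 : i = q
      · subst h2
        rw [hs2q]
        positivity
      · rw [hs2i i h1 h2]
        positivity
  have hνl2 : ν2 l = A / a * v := by
    rw [hνl, hs1l, hs1q]
    field_simp
  -- the last flattening
  refine lastR (M := M * A / a) hμ2 hν2 hpos2 l ?_ N ?_ ?_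
  · rw [hs2l]
    apply div_le_div_of_nonneg_right _ ha0.le
    calc β * A ^ 2 = β * A * A := by ring
      _ ≤ M * A := mul_le_mul_of_nonneg_right hMA hA0.le
  · rw [hνl2]
    have h1 : A * (M - v) = a * N := by
      rw [hvN, ha1]
      ring
    field_simp
    linarith
  intro L3 R3 μ3 ν3 hμ3 hν3 hW3 hs3
  have hlam : M * A / a / (μ2 l + ν2 l) = M / (β * A) := by
    rw [hs2l]
    field_simp
  rw [hlam] at hW3 hs3
  apply EmpS_final hμ3 hν3
  · intro i
    rw [hs3]
    by_cases h1 : i = l
    · subst h1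
      rw [Function.update_self, hs2l]
      have e1 : (M / (β * A)) ^ 2 * (β * A ^ 2 / a) = M ^ 2 / (β * a) := by
        field_simp
      rw [e1, le_div_iff₀ (by positivity)]
      have e2 : β * a = 4 * β ^ (T.card + 1) := by
        rw [ha]
        ring
      rw [e2]
      linarith
    · rw [Function.update_of_ne h1]
      have e1 : μ2 i + ν2 i = β ^ 2 * A / 2 := by
        by_cases h2 : i = q
        · subst h2
          exact hs2q
        · exact hs2i i h1 h2
      rw [e1]
      apply le_of_eq
      have e2 : M / (β * A) * (β ^ 2 * A / 2) = M * β / 2 := by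
        field_simp
      rw [e2, hβM]
      ring
  · rw [hW3, hW2, hW1, hW]
    refine lt_of_le_of_lt (le_of_eq ?_) hw
    have e1 : β ^ T.card = a / 4 := by
      rw [ha]
      ring
    rw [e1]
    field_simp
    ring

/-- emptiness on the simplex of size `d` in dimension `card σ + 1 ≥ 3` -/
theorem EmpS_simplex3 {ι σ : Type} [Fintype ι] [Fintype σ] (hσ : 2 ≤ Fintype.card σ)
    {w : ι → ℕ} {β M A : ℝ}
    (hβ : 2 ≤ β) (hβM : M * β = 2 * Fintype.card ι)
    (hM : 4 * β ^ (Fintype.card σ - 1) * Fintype.card ι ≤ M ^ 2)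
    (hA : A = 4 * β ^ (Fintype.card σ - 2) + 1) (v N : ℤ)
    (hvN : A * (M - v) = (A - 1) * N) (hv0 : (β - 2) * A < v) (hv1 : (v : ℝ) < β * A)
    (hMA : β * A ≤ M) (d : ℕ) (hw : M / 2 * d < ∑ i, (w i : ℝ)) :
    EmpS w (RegS (0 : ℝ) d (fun _ : σ => 0) (fun _ => 1)) := by
  classical
  obtain ⟨l, q, hlq⟩ : ∃ l q : σ, l ≠ q := by
    have : 1 < Fintype.card σ := by omega
    exact Fintype.one_lt_card_iff.1 this
  have e1 : RegS (0 : ℝ) ((d * (0 + ((2 : ℤ) : ℝ)) - 0 * (((2 : ℤ) : ℝ) - 1)) / (0 + 1))
      (Function.update (fun _ : σ => (0 : ℝ)) l (0 + ((2 : ℤ) : ℝ)))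
      (Function.update (fun _ : σ => ((1 : ℝ) * (0 + ((2 : ℤ) : ℝ)) + 0 * (((2 : ℤ) : ℝ) - 1)) / (0 + 1)) l
        ((0 + ((2 : ℤ) : ℝ)) * (((2 : ℤ) : ℝ) - 1) / (0 + 1))) =
      RegS (0 : ℝ) (2 * d) (Function.update (fun _ : σ => (0 : ℝ)) l 2) (fun _ => 2) := by
    congr 1
    · push_cast
      ring
    · norm_num
    · funext i
      by_cases hi : i = l
      · subst hi
        rw [Function.update_self]
        norm_num
      · rw [Function.update_of_ne hi]
        norm_num
  refine EmpS_flat (fun _ => le_refl _) (fun _ => zero_le_one) l (by norm_num)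
    (fun _ => by norm_num) 2 (by norm_num) ?_
  rw [e1]
  have hμ : ∀ i, 0 ≤ Function.update (fun _ : σ => (0 : ℝ)) l 2 i := by
    intro i
    by_cases hi : i = l
    · subst hi
      rw [Function.update_self]
      norm_num
    · rw [Function.update_of_ne hi]
  refine run_gen hβ d l q hlq (base3 hβ hβM hM hA v N hvN hv0 hv1 hMA d hw l q hlq)
    (Fintype.card σ - 2) ∅ (by simp) (by simp)
    (by rw [Finset.card_empty]; omega) 0 (2 * d) _ _ hμ (fun _ => by norm_num) ?_ ?_ ?_ ?_
  · rw [Finset.card_empty]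
    ring
  · intro i
    unfold sl
    rw [Finset.card_empty]
    by_cases hi : i = l
    · subst hi
      rw [Function.update_self, if_pos rfl]
      norm_num
    · rw [Function.update_of_ne hi, if_neg hi, if_neg (by simp)]
      norm_num
  · exact ⟨2, by norm_num⟩
  · intro j _ _ τ h0 h1 h
    exact NodalAux.nodal_pos le_rfl hμ (fun _ => by norm_num) j (by norm_num) h0 h1 h

end Pool.Agent.L7h91.IR
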