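import Pool.Agent.L7h91.IR.Forms3

/-!
# Allowed numbers `M` very near `2 k ^ ((r - 1) / r)`
-/

set_option autoImplicit false

namespace Pool.Agent.L7h91.IR

open Finset

/-- `p x / M₀ ≤ 1 / 4` -/
theorem quarter (s : ℕ) {x : ℝ} (hx2 : 2 ≤ x) : ((s : ℝ) + 1) * x ≤ 1 / 4 * (2 * x ^ (s + 2)) := by
  have h1 : (s : ℝ) + 1 ≤ 2 ^ s := by
    have := one_add_mul_le_pow (show (-2 : ℝ) ≤ 1 by norm_num) s
    norm_num at this
    linarith
  have h2 : (2 : ℝ) ^ s ≤ x ^ s := pow_le_pow_left₀ (by norm_num) hx2 s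
  have h3 : 0 < x ^ s := by positivity
  have h4 : 1 / 4 * (2 * x ^ (s + 2)) = x * (x ^ s * (x / 2)) := by ring
  rw [h4, mul_comm]
  apply mul_le_mul_of_nonneg_left _ (by linarith)
  have h5 : x ^ s * 1 ≤ x ^ s * (x / 2) := mul_le_mul_of_nonneg_left (by linarith) h3.le
  linarith

/-- the change of `β A` -/
theorem betaA (s : ℕ) {x y : ℝ} (hx : 0 < x) (hxy : x ≤ y) :
    x * (4 * x ^ s + 1) * (y / x) ≤ y * (4 * y ^ s + 1) ∧
      y * (4 * y ^ s + 1) ≤ x * (4 * x ^ s + 1) * (y / x) ^ (s + 1) := by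
  have hy : 0 < y := lt_of_lt_of_le hx hxy
  have h1 : x ^ s ≤ y ^ s := pow_le_pow_left₀ hx.le hxy s
  refine ⟨?_, ?_⟩
  · have e1 : x * (4 * x ^ s + 1) * (y / x) = y * (4 * x ^ s + 1) := by
      field_simp
    rw [e1]
    apply mul_le_mul_of_nonneg_left _ hy.le
    linarith
  · have h2 : 1 ≤ y / x := by rw [one_le_div hx]; exact hxy
    have h3 : (1 : ℝ) ≤ (y / x) ^ s := one_le_pow₀ h2
    have e1 : x * (4 * x ^ s + 1) * (y / x) ^ (s + 1) = y * ((4 * x ^ s + 1) * (y / x) ^ s) := by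
      rw [pow_succ]
      field_simp
    rw [e1]
    apply mul_le_mul_of_nonneg_left _ hy.le
    have e2 : 4 * y ^ s = 4 * x ^ s * (y / x) ^ s := by
      rw [div_pow]
      field_simp
    rw [e2, add_mul]
    linarith

theorem exists_upper3 {s k : ℕ} {x : ℝ} (hx2 : 2 ≤ x) (hx : x ^ (s + 3) = k)
    (hc : 1 ≤ 2 * x ^ s * (x - 2)) :
    ∃ M, Upper3 (s + 3) k M ∧ M ≤ 2 * x ^ (s + 2) + 1 / (4 * x ^ s + 1) := by
  have hx0 : 0 < x := by linarith
  have hxs1 : 1 ≤ x ^ s := one_le_pow₀ (by linarith)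
  obtain ⟨A0, hA0⟩ : ∃ A0 : ℝ, A0 = 4 * x ^ s + 1 := ⟨_, rfl⟩
  have hA05 : 5 ≤ A0 := by rw [hA0]; linarith
  have hA00 : 0 < A0 := by linarith
  obtain ⟨M0, hM0⟩ : ∃ M0 : ℝ, M0 = 2 * x ^ (s + 2) := ⟨_, rfl⟩
  have hM00 : 0 < M0 := by rw [hM0]; positivity
  have hk0 : (0 : ℝ) < k := by rw [← hx]; positivity
  have hq : 2 * (k : ℝ) / M0 = x := by
    rw [hM0, ← hx]
    field_simp
    ring
  have hxA : x * A0 ≤ M0 := by
    have e1 : M0 - x * A0 = x * (2 * x ^ s * (x - 2) - 1) := by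
      rw [hM0, hA0]
      ring
    have : 0 ≤ x * (2 * x ^ s * (x - 2) - 1) := mul_nonneg hx0.le (by linarith)
    linarith
  have hM0k : M0 + 1 / A0 ≤ k := by
    have e1 : (k : ℝ) - M0 = x ^ 2 * (x ^ s * (x - 2)) := by
      rw [hM0, ← hx]
      ring
    have h1 : 4 * (1 / 2) ≤ x ^ 2 * (x ^ s * (x - 2)) := by
      apply mul_le_mul (by nlinarith) (by linarith) (by norm_num) (by positivity)
    have h2 : 1 / A0 ≤ 1 := by
      rw [div_le_one hA00]
      linarith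
    linarith
  -- the integers
  obtain ⟨n, hn⟩ : ∃ n : ℤ, n = ⌊(M0 * A0 - (x - 1) * A0 + 1) / (A0 - 1)⌋ := ⟨_, rfl⟩
  have hA1 : 0 < A0 - 1 := by linarith
  have hn1 : (n : ℝ) * (A0 - 1) ≤ M0 * A0 - (x - 1) * A0 + 1 := by
    rw [← le_div_iff₀ hA1, hn]
    exact Int.floor_le _
  have hn2 : M0 * A0 - (x - 1) * A0 + 1 < (n + 1) * (A0 - 1) := by
    rw [← div_lt_iff₀ hA1, hn]
    exact Int.lt_floor_add_one _
  have hnM : M0 ≤ n := by
    have h1 : M0 * (A0 - 1) ≤ n * (A0 - 1) := by nlinarith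
    exact le_of_mul_le_mul_right h1 hA1
  obtain ⟨N, hN⟩ : ∃ N : ℤ, N = ⌊((n : ℝ) - M0) * A0⌋ := ⟨_, rfl⟩
  have hN1 : (N : ℝ) ≤ (n - M0) * A0 := by rw [hN]; exact Int.floor_le _
  have hN2 : ((n : ℝ) - M0) * A0 < N + 1 := by rw [hN]; exact Int.lt_floor_add_one _
  have hN0 : (0 : ℝ) ≤ N := by
    have : 0 ≤ N := by
      rw [hN]
      exact Int.floor_nonneg.2 (mul_nonneg (by linarith) hA00.le)
    exact_mod_cast this
  -- the value at the right end
  have hyx : 2 * (k : ℝ) / (M0 + 1 / A0) ≤ x := by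
    rw [← hq]
    apply div_le_div_of_nonneg_left (by positivity) hM00
    have : 0 < 1 / A0 := by positivity
    linarith
  obtain ⟨M, hMa, hMb, hMN⟩ := ivt3 (k := k) (a := M0) (b := M0 + 1 / A0) (n := n) (N := N) s
    hM00 hk0 (by have : 0 < 1 / A0 := by positivity
                 linarith) (by
      rw [hq, ← hA0]
      have : (N : ℝ) / A0 ≤ n - M0 := by
        rw [div_le_iff₀ hA00]
        exact hN1
      linarith) (by
      have h1 : (N : ℝ) / A0 ≤ N / (4 * (2 * (k : ℝ) / (M0 + 1 / A0)) ^ s + 1) := by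
        apply div_le_div_of_nonneg_left hN0 (by positivity)
        rw [hA0]
        have := pow_le_pow_left₀ (by positivity) hyx s
        rw [hA0] at this
        linarith
      have h2 : (n : ℝ) - M0 ≤ 1 / A0 + N / A0 := by
        rw [← add_div, le_div_iff₀ hA00]
        linarith
      linarith)
  have hMpos : 0 < M := by linarith
  obtain ⟨β, hβ⟩ : ∃ β : ℝ, β = 2 * (k : ℝ) / M := ⟨_, rfl⟩
  have hβ0 : 0 < β := by rw [hβ]; positivity
  have hβx : β ≤ x := by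
    rw [hβ, ← hq]
    apply div_le_div_of_nonneg_left (by positivity) hM00 hMa
  rw [← hβ] at hMN
  have hAβ : 4 * β ^ s + 1 ≤ A0 := by
    rw [hA0]
    have := pow_le_pow_left₀ hβ0.le hβx s
    linarith
  have hAβ0 : 0 < 4 * β ^ s + 1 := by positivity
  have hxβ : x / β = M / M0 := by
    rw [hβ, ← hq]
    field_simp
  -- `β A ≥ x A₀ - 1 / 4`
  have hβA : x * A0 - 1 / 4 ≤ β * (4 * β ^ s + 1) := by
    have h1 := (betaA s hβ0 hβx).2
    rw [hxβ, ← hA0] at h1
    -- `(M0 / M) ^ (s + 1) ≥ 1 - (s + 1) / (A0 M0)`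
    have h2 : 1 - ((s : ℝ) + 1) * (1 / (A0 * M0)) ≤ (M0 / M) ^ (s + 1) := by
      have h3 := one_add_mul_le_pow (show (-2 : ℝ) ≤ M0 / M - 1 by
        have : 0 < M0 / M := by positivity
        linarith) (s + 1)
      rw [add_sub_cancel] at h3
      refine le_trans ?_ h3
      push_cast
      have h4 : 1 - M0 / M ≤ 1 / (A0 * M0) := by
        have h5 : 1 - M0 / M = (M - M0) / M := by field_simp
        rw [h5, div_le_div_iff₀ hMpos (by positivity)]
        have h6 : (M - M0) * (A0 * M0) ≤ 1 / A0 * (A0 * M0) := by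
          apply mul_le_mul_of_nonneg_right (by linarith) (by positivity)
        have h7 : 1 / A0 * (A0 * M0) = M0 := by field_simp
        rw [h7] at h6
        linarith
      have h8 := mul_le_mul_of_nonneg_left h4 (show (0 : ℝ) ≤ (s : ℝ) + 1 by positivity)
      linarith
    have h9 : x * A0 * (M0 / M) ^ (s + 1) ≤ β * (4 * β ^ s + 1) := by
      have h10 : 0 < (M0 / M) ^ (s + 1) := by positivity
      calc x * A0 * (M0 / M) ^ (s + 1)
          ≤ β * (4 * β ^ s + 1) * (M / M0) ^ (s + 1) * (M0 / M) ^ (s + 1) :=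
            mul_le_mul_of_nonneg_right h1 h10.le
        _ = β * (4 * β ^ s + 1) * ((M / M0) * (M0 / M)) ^ (s + 1) := by rw [mul_pow]; ring
        _ = β * (4 * β ^ s + 1) := by
            have : M / M0 * (M0 / M) = 1 := by field_simp
            rw [this, one_pow, mul_one]
    refine le_trans ?_ h9
    have h11 := mul_le_mul_of_nonneg_left h2 (show 0 ≤ x * A0 by positivity)
    refine le_trans ?_ h11
    have h12 : x * A0 * (1 - ((s : ℝ) + 1) * (1 / (A0 * M0))) =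
        x * A0 - ((s : ℝ) + 1) * x / M0 := by
      field_simp
    rw [h12]
    have h13 : ((s : ℝ) + 1) * x / M0 ≤ 1 / 4 := by
      rw [div_le_iff₀ hM00, hM0]
      exact quarter s hx2
    linarith
  have hMN' : (4 * β ^ s + 1) * (M - (n - N)) = 4 * β ^ s * N := by
    have h1 : M - (n - N) = N - N / (4 * β ^ s + 1) := by linarith
    rw [h1]
    field_simp
    ring
  refine ⟨M, ⟨hMpos, by linarith, ?_, ?_⟩, ?_⟩
  · have e1 : s + 3 - 1 = s + 2 := by omega
    rw [e1]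
    calc (2 : ℝ) ^ (s + 3) * (k : ℝ) ^ (s + 2) = M0 ^ (s + 3) := by
          rw [hM0, ← hx, mul_pow, ← pow_mul, ← pow_mul]
          congr 2
          ring
      _ ≤ M ^ (s + 3) := pow_le_pow_left₀ hM00.le hMa _
  · unfold Mid
    rw [Nat.add_sub_cancel, ← hβ]
    refine ⟨?_, n - N, N, ?_, ?_, ?_⟩
    · have h1 : β * (4 * β ^ s + 1) ≤ x * A0 := mul_le_mul hβx hAβ hAβ0.le hx0.le
      linarith
    · push_cast
      exact hMN'
    · push_cast
      have h1 : (β - 2) * (4 * β ^ s + 1) ≤ (x - 2) * A0 := by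
        calc (β - 2) * (4 * β ^ s + 1) ≤ (x - 2) * (4 * β ^ s + 1) :=
              mul_le_mul_of_nonneg_right (by linarith) hAβ0.le
          _ ≤ (x - 2) * A0 := mul_le_mul_of_nonneg_left hAβ (by linarith)
      nlinarith
    · push_cast
      refine lt_of_lt_of_le ?_ hβA
      nlinarith
  · rw [← hM0, ← hA0]
    exact hMb

theorem exists_lower3 {s k : ℕ} {x : ℝ} (hx2 : 2 ≤ x) (hx : x ^ (s + 3) = k)
    (hc : 3 / 2 ≤ 2 * x ^ s * (x - 2)) :
    ∃ M, Lower3 (s + 3) k M ∧ 2 * x ^ (s + 2) - 1 / (4 * x ^ s + 1) ≤ M := by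
  have hx0 : 0 < x := by linarith
  have hxs1 : 1 ≤ x ^ s := one_le_pow₀ (by linarith)
  obtain ⟨A0, hA0⟩ : ∃ A0 : ℝ, A0 = 4 * x ^ s + 1 := ⟨_, rfl⟩
  have hA05 : 5 ≤ A0 := by rw [hA0]; linarith
  have hA00 : 0 < A0 := by linarith
  obtain ⟨M0, hM0⟩ : ∃ M0 : ℝ, M0 = 2 * x ^ (s + 2) := ⟨_, rfl⟩
  have hM00 : 0 < M0 := by rw [hM0]; positivity
  have hk0 : (0 : ℝ) < k := by rw [← hx]; positivity
  have hq : 2 * (k : ℝ) / M0 = x := by
    rw [hM0, ← hx]
    field_simp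
    ring
  have hxA : x * A0 + 1 ≤ M0 := by
    have e1 : M0 - x * A0 = x * (2 * x ^ s * (x - 2) - 1) := by
      rw [hM0, hA0]
      ring
    have : 2 * (1 / 2) ≤ x * (2 * x ^ s * (x - 2) - 1) :=
      mul_le_mul hx2 (by linarith) (by norm_num) hx0.le
    linarith
  have hxA10 : 10 ≤ x * A0 := by nlinarith
  have hM0k : M0 ≤ k := by
    have e1 : (k : ℝ) - M0 = x ^ (s + 2) * (x - 2) := by
      rw [hM0, ← hx]
      ring
    have h1 : 0 ≤ x ^ (s + 2) * (x - 2) := mul_nonneg (by positivity) (by linarith)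
    linarith
  have hinv : 1 / A0 ≤ 1 / 5 := one_div_le_one_div_of_le (by norm_num) hA05
  have hinv0 : 0 < 1 / A0 := by positivity
  -- the integers
  obtain ⟨n, hn⟩ : ∃ n : ℤ, n = ⌊(M0 * A0 - (x - 1) * A0) / (A0 - 1)⌋ := ⟨_, rfl⟩
  have hA1 : 0 < A0 - 1 := by linarith
  have hn1 : (n : ℝ) * (A0 - 1) ≤ M0 * A0 - (x - 1) * A0 := by
    rw [← le_div_iff₀ hA1, hn]
    exact Int.floor_le _
  have hn2 : M0 * A0 - (x - 1) * A0 < (n + 1) * (A0 - 1) := by
    rw [← div_lt_iff₀ hA1, hn]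
    exact Int.lt_floor_add_one _
  have hnM : M0 ≤ n := by
    have h1 : M0 * (A0 - 1) ≤ n * (A0 - 1) := by nlinarith
    exact le_of_mul_le_mul_right h1 hA1
  obtain ⟨N, hN⟩ : ∃ N : ℤ, N = ⌈((n : ℝ) - M0) * A0⌉ := ⟨_, rfl⟩
  have hN1 : ((n : ℝ) - M0) * A0 ≤ N := by rw [hN]; exact Int.le_ceil _
  have hN2 : (N : ℝ) < (n - M0) * A0 + 1 := by rw [hN]; exact Int.ceil_lt_add_one _
  have hN0 : (0 : ℝ) ≤ N := le_trans (mul_nonneg (by linarith) hA00.le) hN1
  have ha0 : 0 < M0 - 1 / A0 := by linarith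
  -- the value at the left end
  have hyx : x ≤ 2 * (k : ℝ) / (M0 - 1 / A0) := by
    rw [← hq]
    apply div_le_div_of_nonneg_left (by positivity) ha0
    linarith
  obtain ⟨M, hMa, hMb, hMN⟩ := ivt3 (k := k) (a := M0 - 1 / A0) (b := M0) (n := n) (N := N) s
    ha0 hk0 (by linarith) (by
      have h1 : (N : ℝ) / (4 * (2 * (k : ℝ) / (M0 - 1 / A0)) ^ s + 1) ≤ N / A0 := by
        apply div_le_div_of_nonneg_left hN0 hA00
        rw [hA0]
        have := pow_le_pow_left₀ hx0.le hyx s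
        rw [hA0] at this
        linarith
      have h2 : (N : ℝ) / A0 ≤ n - M0 + 1 / A0 := by
        rw [div_le_iff₀ hA00, add_mul]
        have : 1 / A0 * A0 = 1 := by field_simp
        rw [this]
        linarith
      linarith) (by
      rw [hq, ← hA0]
      have : (n : ℝ) - M0 ≤ N / A0 := by
        rw [le_div_iff₀ hA00]
        exact hN1
      linarith)
  have hMpos : 0 < M := by linarith
  obtain ⟨β, hβ⟩ : ∃ β : ℝ, β = 2 * (k : ℝ) / M := ⟨_, rfl⟩
  have hβ0 : 0 < β := by rw [hβ]; positivity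
  have hβx : x ≤ β := by
    rw [hβ, ← hq]
    apply div_le_div_of_nonneg_left (by positivity) hMpos hMb
  rw [← hβ] at hMN
  have hAβ : A0 ≤ 4 * β ^ s + 1 := by
    rw [hA0]
    have := pow_le_pow_left₀ hx0.le hβx s
    linarith
  have hAβ0 : 0 < 4 * β ^ s + 1 := by positivity
  have hxβ : β / x = M0 / M := by
    rw [hβ, ← hq]
    field_simp
  -- `β A ≤ x A₀ + 1 / 2`
  have hβA : β * (4 * β ^ s + 1) ≤ x * A0 + 1 / 2 := by
    have h1 := (betaA s hx0 hβx).2
    rw [hxβ, ← hA0] at h1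
    obtain ⟨ε, hε⟩ : ∃ ε : ℝ, ε = ((s : ℝ) + 1) * (1 / (A0 * M0)) := ⟨_, rfl⟩
    have hε0 : 0 < ε := by rw [hε]; positivity
    have h2 : 1 - ε ≤ (M / M0) ^ (s + 1) := by
      have h3 := one_add_mul_le_pow (show (-2 : ℝ) ≤ M / M0 - 1 by
        have : 0 < M / M0 := by positivity
        linarith) (s + 1)
      rw [add_sub_cancel] at h3
      refine le_trans ?_ h3
      push_cast
      have h4 : 1 - M / M0 ≤ 1 / (A0 * M0) := by
        have h5 : 1 - M / M0 = (M0 - M) / M0 := by field_simp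
        rw [h5, div_le_div_iff₀ hM00 (by positivity)]
        have h6 : (M0 - M) * (A0 * M0) ≤ 1 / A0 * (A0 * M0) := by
          apply mul_le_mul_of_nonneg_right (by linarith) (by positivity)
        have h7 : 1 / A0 * (A0 * M0) = M0 := by field_simp
        rw [h7] at h6
        linarith
      have h8 := mul_le_mul_of_nonneg_left h4 (show (0 : ℝ) ≤ (s : ℝ) + 1 by positivity)
      rw [hε]
      linarith
    have h13 : ε * (x * A0) ≤ 1 / 4 := by
      have h14 : ε * (x * A0) = ((s : ℝ) + 1) * x / M0 := by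
        rw [hε]
        field_simp
      rw [h14, div_le_iff₀ hM00, hM0]
      exact quarter s hx2
    have hε1 : ε ≤ 1 / 40 := by nlinarith
    have h9 : β * (4 * β ^ s + 1) * (1 - ε) ≤ x * A0 := by
      calc β * (4 * β ^ s + 1) * (1 - ε) ≤ β * (4 * β ^ s + 1) * (M / M0) ^ (s + 1) :=
            mul_le_mul_of_nonneg_left h2 (by positivity)
        _ ≤ x * A0 * (M0 / M) ^ (s + 1) * (M / M0) ^ (s + 1) :=
            mul_le_mul_of_nonneg_right h1 (by positivity)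
        _ = x * A0 * ((M0 / M) * (M / M0)) ^ (s + 1) := by rw [mul_pow]; ring
        _ = x * A0 := by
            have : M0 / M * (M / M0) = 1 := by field_simp
            rw [this, one_pow, mul_one]
    have h10 : x * A0 ≤ (x * A0 + 1 / 2) * (1 - ε) := by nlinarith
    exact le_of_mul_le_mul_right (h9.trans h10) (by linarith)
  have hMN' : (4 * β ^ s + 1) * (M - (n - N)) = 4 * β ^ s * N := by
    have h1 : M - (n - N) = N - N / (4 * β ^ s + 1) := by linarith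
    rw [h1]
    field_simp
    ring
  refine ⟨M, ⟨hMpos, by linarith, ?_, ?_⟩, ?_⟩
  · have e1 : s + 3 - 1 = s + 2 := by omega
    rw [e1]
    calc M ^ (s + 3) ≤ M0 ^ (s + 3) := pow_le_pow_left₀ hMpos.le hMb _
      _ = (2 : ℝ) ^ (s + 3) * (k : ℝ) ^ (s + 2) := by
          rw [hM0, ← hx, mul_pow, ← pow_mul, ← pow_mul]
          congr 2
          ring
  · unfold Mid
    rw [Nat.add_sub_cancel, ← hβ]
    refine ⟨?_, n - N, N, ?_, ?_, ?_⟩
    · linarith
    · push_cast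
      exact hMN'
    · push_cast
      have h1 : (β - 2) * (4 * β ^ s + 1) ≤ x * A0 + 1 / 2 - 2 * A0 := by
        have h2 : (β - 2) * (4 * β ^ s + 1) =
            β * (4 * β ^ s + 1) - 2 * (4 * β ^ s + 1) := by ring
        rw [h2]
        linarith
      refine lt_of_le_of_lt h1 ?_
      have h3 : M0 * A0 - (x - 1) * A0 - M0 * (A0 - 1) < (n - M0 + 1) * (A0 - 1) := by
        linarith
      linarith
    · push_cast
      have h1 : x * A0 ≤ β * (4 * β ^ s + 1) := mul_le_mul hβx hAβ hA00.le hβ0.le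
      refine lt_of_lt_of_le ?_ h1
      linarith
  · rw [← hM0, ← hA0]
    exact hMa

/-- a sum of `s + 3` terms -/
theorem pow_sub_le (s : ℕ) {x : ℝ} (hx2 : 2 ≤ x) :
    x ^ (s + 3) - 2 ^ (s + 3) ≤
      4 * (x ^ s * (x - 2)) * (s + 1 + x / 2 + (x / 2) ^ 2) := by
  have hx0 : 0 < x := by linarith
  induction s with
  | zero =>
    apply le_of_eq
    push_cast
    ring
  | succ s ih =>
    have h1 : (2 : ℝ) ^ s ≤ x ^ s := pow_le_pow_left₀ (by norm_num) hx2 s
    have hy : 0 < x ^ s := by positivity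
    have e1 : x ^ (s + 1 + 3) - 2 ^ (s + 1 + 3) =
        x * (x ^ (s + 3) - 2 ^ (s + 3)) + 8 * 2 ^ s * (x - 2) := by ring
    have h2 := mul_le_mul_of_nonneg_left ih hx0.le
    have h3 : 8 * 2 ^ s * (x - 2) ≤ 4 * (x * x ^ s) * (x - 2) := by
      apply mul_le_mul_of_nonneg_right _ (by linarith)
      nlinarith
    rw [e1]
    push_cast
    have e2 : 4 * (x ^ (s + 1) * (x - 2)) * ((s : ℝ) + 1 + 1 + x / 2 + (x / 2) ^ 2) =
        x * (4 * (x ^ s * (x - 2)) * ((s : ℝ) + 1 + x / 2 + (x / 2) ^ 2)) +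
          4 * (x * x ^ s) * (x - 2) := by ring
    rw [e2]
    linarith

theorem cond_upper {s k : ℕ} {x : ℝ} (hx2 : 2 ≤ x) (hx : x ^ (s + 3) = k)
    (hk : 2 ^ (s + 3) + 2 * (s + 3) + 2 ≤ k) : 1 ≤ 2 * x ^ s * (x - 2) := by
  by_contra hcon
  push Not at hcon
  have hxs1 : 1 ≤ x ^ s := one_le_pow₀ (by linarith)
  have hx52 : x < 5 / 2 := by nlinarith
  have h1 := pow_sub_le s hx2
  have h2 : x / 2 + (x / 2) ^ 2 < 3 := by nlinarith
  have h3 : 0 ≤ x ^ s * (x - 2) := mul_nonneg (by linarith) (by linarith)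
  have h4 : (2 : ℝ) ^ (s + 3) + 2 * (s + 3) + 2 ≤ k := by exact_mod_cast hk
  have h5 : 4 * (x ^ s * (x - 2)) * (s + 1 + x / 2 + (x / 2) ^ 2) ≤
      2 * (s + 1 + x / 2 + (x / 2) ^ 2) := by
    apply mul_le_mul_of_nonneg_right (by linarith) (by positivity)
  rw [hx] at h1
  linarith

theorem cond_lower {s k : ℕ} {x : ℝ} (hx2 : 2 ≤ x) (hx : x ^ (s + 3) = k)
    (hk : 2 ^ (s + 3) + 3 * (s + 3) + 4 ≤ k) : 3 / 2 ≤ 2 * x ^ s * (x - 2) := by
  by_contra hcon
  push Not at hcon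
  have hxs1 : 1 ≤ x ^ s := one_le_pow₀ (by linarith)
  have hx52 : x < 11 / 4 := by nlinarith
  have h1 := pow_sub_le s hx2
  have h2 : x / 2 + (x / 2) ^ 2 < 10 / 3 := by nlinarith
  have h3 : 0 ≤ x ^ s * (x - 2) := mul_nonneg (by linarith) (by linarith)
  have h4 : (2 : ℝ) ^ (s + 3) + 3 * (s + 3) + 4 ≤ k := by exact_mod_cast hk
  have h5 : 4 * (x ^ s * (x - 2)) * (s + 1 + x / 2 + (x / 2) ^ 2) ≤
      3 * (s + 1 + x / 2 + (x / 2) ^ 2) := by
    apply mul_le_mul_of_nonneg_right (by linarith) (by positivity)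
  rw [hx] at h1
  linarith

end Pool.Agent.L7h91.IR
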