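import Pool.Agent.L7h91.IR.Window2
import Pool.Agent.TH396.IN.Fields

/-!
# Very general points and points with algebraically independent coordinates, `k ≥ 2 ^ r`
-/

set_option autoImplicit false

namespace Pool.Agent.L7h91.IR

open MvPolynomial Pool.Agent.TH3.IR Pool.Agent.H932R5

/-- a configuration over `ℂ` in affine coordinates -/
theorem config_of {E k : ℕ} {w : Fin k → ℕ} {d : ℕ}
    (h : ∃ F : MvPolynomial (Fin k × Fin (E + 1)) ℂ, F ≠ 0 ∧ ∀ P : Fin k → Fin (E + 1) → ℂ,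
      MvPolynomial.eval (fun q : Fin k × Fin (E + 1) => P q.1 q.2) F ≠ 0 → NoForms w P d) :
    ∃ (K : Type) (_ : Field K) (_ : CharZero K) (x : Fin k → Fin (E + 1) → K),
        ∀ f ∈ Z w x, (∀ α, coeff α f ≠ 0 → Finsupp.degree α ≤ d) → f = 0 := by
  obtain ⟨F, hF, h⟩ := h
  obtain ⟨y, hy⟩ : ∃ y : Fin k × Fin (E + 1) → ℂ, eval y F ≠ 0 := by
    by_contra hcon
    push Not at hcon
    exact hF (MvPolynomial.funext fun y => by rw [hcon y, map_zero])
  refine ⟨ℂ, inferInstance, inferInstance, fun i j => y (i, j), fun f hf hfd => ?_⟩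
  have h1 := vd_eq_bot (h (fun i j => y (i, j)) hy)
  obtain ⟨G, hG, rfl⟩ := deh_surj (K := ℂ) (E := E) (d := d) (mem_mspan.2 hfd)
  have h2 : G ∈ Vd d w (fun i j => y (i, j)) := mem_Vd.2 ⟨hG, hf⟩
  rw [h1, Submodule.mem_bot] at h2
  rw [h2, map_zero]

/-- the statement for very general points and for algebraically independent coordinates -/
def Bound (N r : ℕ) (c : ℝ) : Prop :=
  (∃ F : ℕ → MvPolynomial (Fin r × Fin (N + 1)) ℂ, (∀ i, F i ≠ 0) ∧
    ∀ P : Fin r → Fin (N + 1) → ℂ,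
      (∀ i, MvPolynomial.eval (fun q : Fin r × Fin (N + 1) => P q.1 q.2) (F i) ≠ 0) →
      ∀ (m : Fin r → ℕ) (d : ℕ) (f : MvPolynomial (Fin (N + 1)) ℂ), f.IsHomogeneous d → f ≠ 0 →
        (∀ j : Fin r, f ∈ (RingHom.ker (MvPolynomial.eval (P j))) ^ m j) →
        ∑ j, (m j : ℝ) ≤ d * c) ∧
  ∀ (K : Type) [Field K] [CharZero K] (P : Fin r → Fin (N + 1) → K),
    AlgebraicIndependent ℚ (fun q : Fin r × Fin (N + 1) => P q.1 q.2) →
    ∀ (m : Fin r → ℕ) (d : ℕ) (f : MvPolynomial (Fin (N + 1)) K), f.IsHomogeneous d → f ≠ 0 →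
      (∀ j : Fin r, f ∈ (RingHom.ker (MvPolynomial.eval (P j))) ^ m j) →
      ∑ j, (m j : ℝ) ≤ d * c

theorem bound_of {E r : ℕ} {c : ℝ}
    (H : ∀ (d : ℕ) (w : Fin r → ℕ), (d : ℝ) * c < ∑ i, (w i : ℝ) →
      ∃ F : MvPolynomial (Fin r × Fin (E + 1)) ℂ, F ≠ 0 ∧ ∀ P : Fin r → Fin (E + 1) → ℂ,
      MvPolynomial.eval (fun q : Fin r × Fin (E + 1) => P q.1 q.2) F ≠ 0 → NoForms w P d) :
    Bound (E + 1) r c := by
  refine ⟨?_, ?_⟩
  · exact Pool.Agent.TH380.PN.veryGeneral Pool.Agent.TH380.PN.generic_of_config E r c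
      (fun d w h => config_of (H d w h))
  · intro K _ _ P hP m d f hfd hf0 hfm
    exact Pool.Agent.TH396.IN.anyField E r c (fun d w h => config_of (H d w h)) P hP m d f hfd
      hf0 hfm

theorem bound_upper {N r : ℕ} (hN : 3 ≤ N) {M : ℝ} (hM : Upper N r M) : Bound N r (M / 2) := by
  obtain ⟨E, rfl⟩ : ∃ E, N = E + 1 := ⟨N - 1, by omega⟩
  refine bound_of fun d w h => empty2 (by omega) w d hM ?_
  linarith

theorem bound_all {N r : ℕ} (hN : 3 ≤ N) (hr : 2 ^ N ≤ r) :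
    Bound N r (kap N r + 1 / (N : ℝ)) := by
  obtain ⟨p, rfl⟩ : ∃ p, N = p + 2 := ⟨N - 2, by omega⟩
  refine bound_of (E := p + 1) fun d w h => ?_
  obtain ⟨F, hF, h1⟩ := window3 (p := p) (by omega) hr w
  exact ⟨F, hF, fun P hP => (h1 P hP d).1 (Or.inl (by rw [mul_comm]; exact h))⟩

end Pool.Agent.L7h91.IR
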