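import Pool.Agent.L7h91.IR.Sur

/-!
# From the simplex to forms at general points
-/

set_option autoImplicit false

namespace Pool.Agent.L7h91.IR

open Finset MvPolynomial Pool.Agent.TH603.EL Pool.Agent.TH3.IR

/-- emptiness at general points from emptiness on the simplex -/
theorem forms_of_empS {r n : ℕ} {w : Fin r → ℕ} {d : ℕ}
    (hE : EmpS w (RegS (0 : ℝ) d (fun _ : Fin n => 0) (fun _ => 1))) :
    ∃ F : MvPolynomial (Fin r × Fin (n + 1)) ℂ, F ≠ 0 ∧ ∀ P : Fin r → Fin (n + 1) → ℂ,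
      MvPolynomial.eval (fun q : Fin r × Fin (n + 1) => P q.1 q.2) F ≠ 0 → NoForms w P d := by
  obtain ⟨G0, hG0, hG⟩ := exists_minor hE
  refine ⟨_, idx_ne_zero hG0, fun P hP G hGd hGw => ?_⟩
  rw [eval_idx] at hP
  apply lau_eq_zero hGd
  refine hG ℂ (fun i => P i 0) (fun i j => P i j.succ) hP (lau G) (lau_support hGd) ?_
  intro i
  have h1 : G ∈ (RingHom.ker (MvPolynomial.eval (Fin.cons 1 (P i) : Fin (n + 2) → ℂ))) ^ w i :=
    Ideal.pow_right_mono (span_le_ker (P i)) _ (hGw i)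
  have h2 := lau_LMS hGd (P := (Fin.cons 1 (P i) : Fin (n + 2) → ℂ)) (by simp) h1
  have e1 : (Fin.cons 1 (P i) : Fin (n + 2) → ℂ) 0 = 1 := rfl
  have e2 : (Fin.cons 1 (P i) : Fin (n + 2) → ℂ) 1 = P i 0 := rfl
  have e3 : ∀ j : Fin n, (Fin.cons 1 (P i) : Fin (n + 2) → ℂ) j.succ.succ = P i j.succ :=
    fun j => rfl
  simp only [e1, e2, e3, div_one] at h2
  exact h2

open SMain in
/-- independence at general points from independence on the simplex -/
theorem forms_of_surS {r k m d : ℕ}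
    (hS : SurS (fun _ : Fin r => m) (RegS (0 : ℝ) d (fun _ : Fin (k + 1) => 0) (fun _ => 1))) :
    ∃ F : MvPolynomial (Fin r × Fin (k + 2)) ℂ, F ≠ 0 ∧ ∀ P : Fin r → Fin (k + 2) → ℂ,
      MvPolynomial.eval (fun q : Fin r × Fin (k + 2) => P q.1 q.2) F ≠ 0 →
      H932R5.SurjAt (E := k + 1) (fun _ : Fin r => m) P d := by
  obtain ⟨G, hG0, hG⟩ := exists_minorS hS
  let e : Fin r × Option (Fin (k + 1)) → Fin r × Fin (k + 2) :=
    fun q => (q.1, Option.elim q.2 0 Fin.succ)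
  have he : Function.Injective e := by
    rintro ⟨a, b⟩ ⟨a', b'⟩ h
    have h1 : a = a' := congrArg Prod.fst h
    have h2 : Option.elim b 0 Fin.succ = Option.elim b' 0 Fin.succ := congrArg Prod.snd h
    subst h1
    cases b with
    | none =>
      cases b' with
      | none => rfl
      | some j => exact absurd h2.symm (Fin.succ_ne_zero j)
    | some i =>
      cases b' with
      | none => exact absurd h2 (Fin.succ_ne_zero i)
      | some j => rw [Fin.succ_injective _ h2]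
  refine ⟨MvPolynomial.map (Int.castRingHom ℂ) (rename e G), ?_, ?_⟩
  · intro h0
    apply hG0
    have h1 := MvPolynomial.map_injective (σ := Fin r × Fin (k + 2)) (Int.castRingHom ℂ)
      (RingHom.injective_int (Int.castRingHom ℂ)) (h0.trans (map_zero _).symm)
    exact rename_injective e he (h1.trans (map_zero _).symm)
  intro P hP
  have hev : MvPolynomial.eval (fun q : Fin r × Fin (k + 2) => P q.1 q.2)
      (MvPolynomial.map (Int.castRingHom ℂ) (rename e G)) =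
      MvPolynomial.eval₂ (Int.castRingHom ℂ)
        (fun q => Option.elim q.2 (P q.1 0) (fun j : Fin (k + 1) => P q.1 j.succ)) G := by
    rw [MvPolynomial.eval_map, MvPolynomial.eval₂_rename]
    congr 1
    funext q
    obtain ⟨a, b⟩ := q
    cases b <;> rfl
  rw [hev] at hP
  obtain ⟨T, hT, hTc, hEmp⟩ := hG ℂ (fun i => P i 0) (fun i j => P i j.succ) hP
  have hnc : nc (Fin (k + 1)) (fun _ : Fin r => m) = r * (m + (k + 1)).choose (k + 1 + 1) := by
    unfold nc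
    rw [Finset.sum_const, Finset.card_univ, Fintype.card_fin, Fintype.card_fin, smul_eq_mul]
  have hlow := Pool.Agent.H932R5.finrank_ge (K := ℂ) (E := k + 1) d (fun _ : Fin r => m) P
  rw [Finset.sum_const, Finset.card_univ, Fintype.card_fin, smul_eq_mul] at hlow
  have hup := upper (n := k + 1) (d := d) (Pool.Agent.H932R5.Vd d (fun _ : Fin r => m) P)
    (fun f hf => (Submodule.mem_inf.1 hf).1) T hT (by
    intro f hf hs
    have hfh : f.IsHomogeneous d := (Submodule.mem_inf.1 hf).1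
    refine lau_eq_zero hfh (hEmp (lau f) hs fun i => ?_)
    have h1 : f ∈ (RingHom.ker (MvPolynomial.eval (Fin.cons 1 (P i) : Fin (k + 3) → ℂ))) ^ m := by
      have h2 : f ∈ (Pool.Agent.H932R5.hI (P i)) ^ m := by
        have h3 := (Submodule.mem_inf.1 hf).2
        rw [Submodule.restrictScalars_mem, Ideal.mem_iInf] at h3
        exact h3 i
      refine Ideal.pow_right_mono ?_ m h2
      unfold Pool.Agent.H932R5.hI
      rw [Ideal.span_le]
      rintro _ ⟨j, rfl⟩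
      rw [SetLike.mem_coe, RingHom.mem_ker]
      simp
    have h4 := lau_LMS hfh (P := (Fin.cons 1 (P i) : Fin (k + 3) → ℂ)) one_ne_zero h1
    have e1 : (Fin.cons 1 (P i) : Fin (k + 3) → ℂ) 1 / (Fin.cons 1 (P i) : Fin (k + 3) → ℂ) 0 =
        P i 0 := by
      show P i 0 / 1 = P i 0
      rw [div_one]
    have e2 : (fun j : Fin (k + 1) => (Fin.cons 1 (P i) : Fin (k + 3) → ℂ) j.succ.succ /
        (Fin.cons 1 (P i) : Fin (k + 3) → ℂ) 0) = fun j => P i j.succ := by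
      funext j
      show P i j.succ / 1 = P i j.succ
      rw [div_one]
    rw [e1, e2] at h4
    exact h4)
  rw [hTc, hnc] at hup
  apply surjAt_of_finrank
  rw [Finset.sum_const, Finset.card_univ, Fintype.card_fin, smul_eq_mul]
  omega

/-- the numbers `M` which are allowed for the emptiness in dimension `r` with `k` points -/
def Upper (r k : ℕ) (M : ℝ) : Prop :=
  0 < M ∧ M ≤ k ∧ 2 ^ r * (k : ℝ) ^ (r - 1) ≤ M ^ r ∧
    ((∃ N : ℤ, M = N) ∨ ∃ N : ℤ, M - 4 * (2 * k / M) ^ (r - 2) = N)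

/-- the numbers `M` which are allowed for the independence in dimension `r` with `k` points -/
def Lower (r k : ℕ) (M : ℝ) : Prop :=
  0 < M ∧ M ≤ k ∧ M ^ r ≤ 2 ^ r * (k : ℝ) ^ (r - 1) ∧ 4 * (2 * k / M) ^ (r - 2) ≤ M ∧
    ((∃ N : ℤ, M = N) ∨ ∃ N : ℤ, M - 4 * (2 * k / M) ^ (r - 2) = N)

/-- emptiness in one degree -/
theorem empty2 {E k : ℕ} (hE : 2 ≤ E) (w : Fin k → ℕ) (d : ℕ) {M : ℝ} (hM : Upper (E + 1) k M)
    (hd : M * d < 2 * ∑ i, (w i : ℝ)) :
    ∃ F : MvPolynomial (Fin k × Fin (E + 1)) ℂ, F ≠ 0 ∧ ∀ P : Fin k → Fin (E + 1) → ℂ,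
      MvPolynomial.eval (fun q : Fin k × Fin (E + 1) => P q.1 q.2) F ≠ 0 → NoForms w P d := by
  obtain ⟨hM0, hMk, hMr, hint⟩ := hM
  obtain ⟨n, rfl⟩ : ∃ n, E = n + 1 := ⟨E - 1, by omega⟩
  have e1 : n + 1 + 1 - 1 = n + 1 := by omega
  have e2 : n + 1 + 1 - 2 = n := by omega
  rw [e1] at hMr
  rw [e2] at hint
  apply forms_of_empS
  refine EmpS_simplex2 (ι := Fin k) (σ := Fin (n + 1)) (β := 2 * k / M) (M := M) ?_ ?_ ?_ ?_ ?_
    d ?_
  · rw [Fintype.card_fin]
    exact hE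
  · rw [le_div_iff₀ hM0]
    linarith
  · rw [Fintype.card_fin]
    field_simp
  · rw [Fintype.card_fin, Fintype.card_fin, Nat.add_sub_cancel, div_pow, mul_div_assoc',
      div_mul_eq_mul_div, div_le_iff₀ (by positivity)]
    calc 4 * (2 * (k : ℝ)) ^ n * k = 2 ^ (n + 1 + 1) * (k : ℝ) ^ (n + 1) := by ring
      _ ≤ M ^ (n + 1 + 1) := hMr
      _ = M ^ 2 * M ^ n := by ring
  · rw [Fintype.card_fin, Nat.add_sub_cancel]
    exact hint
  · linarith

/-- independence in one degree -/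
theorem indep2 {E k : ℕ} (hE : 2 ≤ E) (m d : ℕ) {M : ℝ} (hM : Lower (E + 1) k M)
    (hd : 2 * k / M * (m + E) + E + 3 / 2 ≤ d) :
    ∃ F : MvPolynomial (Fin k × Fin (E + 1)) ℂ, F ≠ 0 ∧ ∀ P : Fin k → Fin (E + 1) → ℂ,
      MvPolynomial.eval (fun q : Fin k × Fin (E + 1) => P q.1 q.2) F ≠ 0 →
      H932R5.SurjAt (fun _ : Fin k => m) P d := by
  obtain ⟨hM0, hMk, hMr, hM1, hint⟩ := hM
  obtain ⟨n, rfl⟩ : ∃ n, E = n + 1 := ⟨E - 1, by omega⟩
  have e1 : n + 1 + 1 - 1 = n + 1 := by omega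
  have e2 : n + 1 + 1 - 2 = n := by omega
  rw [e1] at hMr
  rw [e2] at hint hM1
  apply forms_of_surS
  refine SurS_simplex2 (ι := Fin k) (σ := Fin (n + 1)) ?_ m (β := 2 * k / M) (M := M) ?_ ?_ ?_ ?_
    ?_ d ?_
  · rw [Fintype.card_fin]
    exact hE
  · rw [le_div_iff₀ hM0]
    linarith
  · rw [Fintype.card_fin]
    field_simp
  · rw [Fintype.card_fin, Fintype.card_fin, Nat.add_sub_cancel, div_pow, mul_div_assoc',
      div_mul_eq_mul_div, le_div_iff₀ (by positivity)]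
    calc M ^ 2 * M ^ n = M ^ (n + 1 + 1) := by ring
      _ ≤ 2 ^ (n + 1 + 1) * (k : ℝ) ^ (n + 1) := hMr
      _ = 4 * (2 * (k : ℝ)) ^ n * k := by ring
  · rw [Fintype.card_fin, Nat.add_sub_cancel]
    exact hM1
  · rw [Fintype.card_fin, Nat.add_sub_cancel]
    exact hint
  · rw [Fintype.card_fin]
    exact hd

/-- emptiness and independence for one open set of points -/
theorem window2 {E k : ℕ} (hE : 2 ≤ E) (hk : 1 ≤ k) (w : Fin k → ℕ) :
    ∃ F : MvPolynomial (Fin k × Fin (E + 1)) ℂ, F ≠ 0 ∧ ∀ P : Fin k → Fin (E + 1) → ℂ,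
      MvPolynomial.eval (fun q : Fin k × Fin (E + 1) => P q.1 q.2) F ≠ 0 → ∀ d : ℕ,
        ((∃ M, Upper (E + 1) k M ∧ M * d < 2 * ∑ i, (w i : ℝ)) → NoForms w P d) ∧
        ((∃ M, Lower (E + 1) k M ∧ ∀ i, 2 * k / M * (w i + E) + E + 3 / 2 ≤ d) →
          H932R5.SurjAt w P d) := by
  classical
  have : Nonempty (Fin k) := ⟨⟨0, hk⟩⟩
  have hk0 : (1 : ℝ) ≤ k := by exact_mod_cast hk
  -- emptiness: finitely many degrees
  have hA : ∀ d : ℕ, ∃ F : MvPolynomial (Fin k × Fin (E + 1)) ℂ, F ≠ 0 ∧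
      ∀ P : Fin k → Fin (E + 1) → ℂ,
      MvPolynomial.eval (fun q : Fin k × Fin (E + 1) => P q.1 q.2) F ≠ 0 →
      (∃ M, Upper (E + 1) k M ∧ M * d < 2 * ∑ i, (w i : ℝ)) → NoForms w P d := by
    intro d
    by_cases hd : ∃ M, Upper (E + 1) k M ∧ M * d < 2 * ∑ i, (w i : ℝ)
    · obtain ⟨M, hM, hd'⟩ := hd
      obtain ⟨F, hF, h⟩ := empty2 hE w d hM hd'
      exact ⟨F, hF, fun P hP _ => h P hP⟩
    · exact ⟨1, one_ne_zero, fun P _ h => absurd h hd⟩
  choose FA hFA hA' using hA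
  -- independence: one degree
  obtain ⟨m, hm, i0, hi0⟩ : ∃ M : ℕ, (∀ i, w i ≤ M) ∧ ∃ i, w i = M := by
    refine ⟨Finset.univ.sup w, fun i => Finset.le_sup (Finset.mem_univ i), ?_⟩
    obtain ⟨i, _, hi⟩ := Finset.exists_mem_eq_sup (Finset.univ : Finset (Fin k))
      Finset.univ_nonempty w
    exact ⟨i, hi.symm⟩
  have hB : ∃ F : MvPolynomial (Fin k × Fin (E + 1)) ℂ, F ≠ 0 ∧
      ∀ P : Fin k → Fin (E + 1) → ℂ,
      MvPolynomial.eval (fun q : Fin k × Fin (E + 1) => P q.1 q.2) F ≠ 0 → ∀ d : ℕ,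
      (∃ M, Lower (E + 1) k M ∧ ∀ i, 2 * k / M * (w i + E) + E + 3 / 2 ≤ d) →
          H932R5.SurjAt w P d := by
    by_cases hex : ∃ d : ℕ, ∃ M, Lower (E + 1) k M ∧ 2 * k / M * (m + E) + E + 3 / 2 ≤ d
    · obtain ⟨M, hM, hD⟩ := Nat.find_spec hex
      obtain ⟨F, hF, h⟩ := indep2 hE m (Nat.find hex) hM hD
      refine ⟨F, hF, fun P hP d hd => ?_⟩
      obtain ⟨M', hM', hd'⟩ := hd
      have h1 : Nat.find hex ≤ d := by
        apply Nat.find_min' hex
        refine ⟨M', hM', ?_⟩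
        have := hd' i0
        rw [hi0] at this
        exact this
      exact ((h P hP).mono_w hm).mono_d h1
    · refine ⟨1, one_ne_zero, fun P _ d hd => ?_⟩
      exfalso
      apply hex
      obtain ⟨M', hM', hd'⟩ := hd
      refine ⟨d, M', hM', ?_⟩
      have := hd' i0
      rw [hi0] at this
      exact this
  obtain ⟨FB, hFB, hB'⟩ := hB
  set S := ∑ i, w i with hS
  refine ⟨(∏ d ∈ Finset.range (S + 1), FA d) * FB,
    mul_ne_zero (Finset.prod_ne_zero_iff.2 fun d _ => hFA d) hFB, fun P hP d => ⟨fun hd => ?_,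
      fun hd => ?_⟩⟩
  · rw [map_mul, map_prod] at hP
    have h1 := Finset.prod_ne_zero_iff.1 (left_ne_zero_of_mul hP)
    refine hA' d P (h1 d ?_) hd
    rw [Finset.mem_range, Nat.lt_succ_iff]
    obtain ⟨M, hM, hd'⟩ := hd
    have hM2 : 2 ≤ M := by
      by_contra hcon
      push Not at hcon
      have h2 : M ^ (E + 1) < 2 ^ (E + 1) := pow_lt_pow_left₀ hcon hM.1.le (by omega)
      have h3 := hM.2.2.1
      have h4 : (1 : ℝ) ≤ (k : ℝ) ^ (E + 1 - 1) := one_le_pow₀ hk0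
      have h5 : (0 : ℝ) < 2 ^ (E + 1) := by positivity
      nlinarith
    have h2 : (2 : ℝ) * d ≤ M * d := mul_le_mul_of_nonneg_right hM2 (Nat.cast_nonneg _)
    have h3 : ((∑ i, w i : ℕ) : ℝ) = ∑ i, (w i : ℝ) := by push_cast; rfl
    have h4 : (d : ℝ) < ((∑ i, w i : ℕ) : ℝ) := by
      rw [h3]
      linarith
    have h5 : d < ∑ i, w i := by exact_mod_cast h4
    exact h5.le
  · rw [map_mul] at hP
    exact hB' P (right_ne_zero_of_mul hP) d hd

end Pool.Agent.L7h91.IR
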