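import Pool.Agent.L7h91.IR.Window2
import Pool.Agent.L7h91.IR.Sur3

/-!
# From the simplex to forms at general points, with one more flattening
-/

set_option autoImplicit false

namespace Pool.Agent.L7h91.IR

open Finset MvPolynomial Pool.Agent.TH603.EL Pool.Agent.TH3.IR

/-- the integrality condition on `M` of the second type: with `β = 2 k / M` and
`A = 4 β ^ (r - 3) + 1` there are integers `v, N` with `A (M - v) = (A - 1) N`,
`(β - 2) A < v < β A`, and `β A ≤ M` -/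
def Mid (r k : ℕ) (M : ℝ) : Prop :=
  (2 * k / M) * (4 * (2 * k / M) ^ (r - 3) + 1) ≤ M ∧
  ∃ v N : ℤ, (4 * (2 * k / M) ^ (r - 3) + 1) * (M - v) = 4 * (2 * k / M) ^ (r - 3) * N ∧
    (2 * k / M - 2) * (4 * (2 * k / M) ^ (r - 3) + 1) < v ∧
    (v : ℝ) < 2 * k / M * (4 * (2 * k / M) ^ (r - 3) + 1)

/-- the numbers `M` which are allowed for the emptiness -/
def Upper3 (r k : ℕ) (M : ℝ) : Prop :=
  0 < M ∧ M ≤ k ∧ 2 ^ r * (k : ℝ) ^ (r - 1) ≤ M ^ r ∧ Mid r k M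

/-- the numbers `M` which are allowed for the independence -/
def Lower3 (r k : ℕ) (M : ℝ) : Prop :=
  0 < M ∧ M ≤ k ∧ M ^ r ≤ 2 ^ r * (k : ℝ) ^ (r - 1) ∧ Mid r k M

/-- emptiness in one degree -/
theorem empty3 {E k : ℕ} (hE : 2 ≤ E) (w : Fin k → ℕ) (d : ℕ) {M : ℝ} (hM : Upper3 (E + 1) k M)
    (hd : M * d < 2 * ∑ i, (w i : ℝ)) :
    ∃ F : MvPolynomial (Fin k × Fin (E + 1)) ℂ, F ≠ 0 ∧ ∀ P : Fin k → Fin (E + 1) → ℂ,
      MvPolynomial.eval (fun q : Fin k × Fin (E + 1) => P q.1 q.2) F ≠ 0 → NoForms w P d := by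
  obtain ⟨hM0, hMk, hMr, hMA, v, N, hvN, hv0, hv1⟩ := hM
  obtain ⟨n, rfl⟩ : ∃ n, E = n + 1 := ⟨E - 1, by omega⟩
  have e1 : n + 1 + 1 - 1 = n + 1 := by omega
  have e2 : n + 1 + 1 - 3 = n + 1 - 2 := by omega
  rw [e1] at hMr
  rw [e2] at hMA hvN hv0 hv1
  apply forms_of_empS
  refine EmpS_simplex3 (ι := Fin k) (σ := Fin (n + 1)) (β := 2 * k / M) (M := M)
    (A := 4 * (2 * k / M) ^ (n + 1 - 2) + 1) ?_ ?_ ?_ ?_ ?_ v N ?_ hv0 hv1 hMA d ?_
  · rw [Fintype.card_fin]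
    exact hE
  · rw [le_div_iff₀ hM0]
    linarith
  · rw [Fintype.card_fin]
    field_simp
  · rw [Fintype.card_fin, Fintype.card_fin, Nat.add_sub_cancel, div_pow, mul_div_assoc',
      div_mul_eq_mul_div, div_le_iff₀ (by positivity)]
    calc 4 * (2 * (k : ℝ)) ^ n * k = 2 ^ (n + 1 + 1) * (k : ℝ) ^ (n + 1) := by ring
      _ ≤ M ^ (n + 1 + 1) := hMr
      _ = M ^ 2 * M ^ n := by ring
  · rw [Fintype.card_fin]
  · rw [hvN]
    ring
  · linarith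

/-- independence in one degree -/
theorem indep3 {E k : ℕ} (hE : 2 ≤ E) (m d : ℕ) {M : ℝ} (hM : Lower3 (E + 1) k M)
    (hd : 2 * k / M * (m + E) + E + 15 / 4 ≤ d) :
    ∃ F : MvPolynomial (Fin k × Fin (E + 1)) ℂ, F ≠ 0 ∧ ∀ P : Fin k → Fin (E + 1) → ℂ,
      MvPolynomial.eval (fun q : Fin k × Fin (E + 1) => P q.1 q.2) F ≠ 0 →
      H932R5.SurjAt (fun _ : Fin k => m) P d := by
  obtain ⟨hM0, hMk, hMr, hMA, v, N, hvN, hv0, hv1⟩ := hM
  obtain ⟨n, rfl⟩ : ∃ n, E = n + 1 := ⟨E - 1, by omega⟩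
  have e1 : n + 1 + 1 - 1 = n + 1 := by omega
  have e2 : n + 1 + 1 - 3 = n + 1 - 2 := by omega
  rw [e1] at hMr
  rw [e2] at hMA hvN hv0 hv1
  apply forms_of_surS
  refine SurS_simplex3 (ι := Fin k) (σ := Fin (n + 1)) ?_ m (β := 2 * k / M) (M := M)
    (A := 4 * (2 * k / M) ^ (n + 1 - 2) + 1) ?_ ?_ ?_ ?_ v N ?_ hv0 hv1 hMA d ?_
  · rw [Fintype.card_fin]
    exact hE
  · rw [le_div_iff₀ hM0]
    linarith
  · rw [Fintype.card_fin]
    field_simp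
  · rw [Fintype.card_fin, Fintype.card_fin, Nat.add_sub_cancel, div_pow, mul_div_assoc',
      div_mul_eq_mul_div, le_div_iff₀ (by positivity)]
    calc M ^ 2 * M ^ n = M ^ (n + 1 + 1) := by ring
      _ ≤ 2 ^ (n + 1 + 1) * (k : ℝ) ^ (n + 1) := hMr
      _ = 4 * (2 * (k : ℝ)) ^ n * k := by ring
  · rw [Fintype.card_fin]
  · rw [hvN]
    ring
  · rw [Fintype.card_fin]
    exact hd

/-- the degrees of the emptiness -/
def EmpDeg (r k : ℕ) (w : Fin k → ℕ) (d : ℕ) : Prop :=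
  ∃ M, (Upper r k M ∨ Upper3 r k M) ∧ M * d < 2 * ∑ i, (w i : ℝ)

/-- emptiness and independence for one open set of points -/
theorem window2' {E k : ℕ} (hE : 2 ≤ E) (hk : 1 ≤ k) (w : Fin k → ℕ) :
    ∃ F : MvPolynomial (Fin k × Fin (E + 1)) ℂ, F ≠ 0 ∧ ∀ P : Fin k → Fin (E + 1) → ℂ,
      MvPolynomial.eval (fun q : Fin k × Fin (E + 1) => P q.1 q.2) F ≠ 0 → ∀ d : ℕ,
        ((∃ M, (Upper (E + 1) k M ∨ Upper3 (E + 1) k M) ∧ M * d < 2 * ∑ i, (w i : ℝ)) →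
          NoForms w P d) ∧
        ((∃ M, Lower (E + 1) k M ∧ ∀ i, 2 * k / M * (w i + E) + E + 3 / 2 ≤ d) →
          H932R5.SurjAt w P d) ∧
        ((∃ M, Lower3 (E + 1) k M ∧ ∀ i, 2 * k / M * (w i + E) + E + 15 / 4 ≤ d) →
          H932R5.SurjAt w P d) := by
  classical
  have : Nonempty (Fin k) := ⟨⟨0, hk⟩⟩
  have hk0 : (1 : ℝ) ≤ k := by exact_mod_cast hk
  obtain ⟨F0, hF0, h0⟩ := window2 hE hk w
  -- emptiness: finitely many degrees
  have hA : ∀ d : ℕ, ∃ F : MvPolynomial (Fin k × Fin (E + 1)) ℂ, F ≠ 0 ∧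
      ∀ P : Fin k → Fin (E + 1) → ℂ,
      MvPolynomial.eval (fun q : Fin k × Fin (E + 1) => P q.1 q.2) F ≠ 0 →
      (∃ M, Upper3 (E + 1) k M ∧ M * d < 2 * ∑ i, (w i : ℝ)) → NoForms w P d := by
    intro d
    by_cases hd : ∃ M, Upper3 (E + 1) k M ∧ M * d < 2 * ∑ i, (w i : ℝ)
    · obtain ⟨M, hM, hd'⟩ := hd
      obtain ⟨F, hF, h⟩ := empty3 hE w d hM hd'
      exact ⟨F, hF, fun P hP _ => h P hP⟩
    · exact ⟨1, one_ne_zero, fun P _ h => absurd h hd⟩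
  choose FA hFA hA' using hA
  -- independence: one degree
  obtain ⟨m, hm, i0, hi0⟩ : ∃ M : ℕ, (∀ i, w i ≤ M) ∧ ∃ i, w i = M := by
    refine ⟨Finset.univ.sup w, fun i => Finset.le_sup (Finset.mem_univ i), ?_⟩
    obtain ⟨i, _, hi⟩ := Finset.exists_mem_eq_sup (Finset.univ : Finset (Fin k))
      Finset.univ_nonempty w
    exact ⟨i, hi.symm⟩
  have hB : ∃ F : MvPolynomial (Fin k × Fin (E + 1)) ℂ, F ≠ 0 ∧
      ∀ P : Fin k → Fin (E + 1) → ℂ,
      MvPolynomial.eval (fun q : Fin k × Fin (E + 1) => P q.1 q.2) F ≠ 0 → ∀ d : ℕ,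
      (∃ M, Lower3 (E + 1) k M ∧ ∀ i, 2 * k / M * (w i + E) + E + 15 / 4 ≤ d) →
          H932R5.SurjAt w P d := by
    by_cases hex : ∃ d : ℕ, ∃ M, Lower3 (E + 1) k M ∧ 2 * k / M * (m + E) + E + 15 / 4 ≤ d
    · obtain ⟨M, hM, hD⟩ := Nat.find_spec hex
      obtain ⟨F, hF, h⟩ := indep3 hE m (Nat.find hex) hM hD
      refine ⟨F, hF, fun P hP d hd => ?_⟩
      obtain ⟨M', hM', hd'⟩ := hd
      have h1 : Nat.find hex ≤ d := by
        apply Nat.find_min' hex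
        refine ⟨M', hM', ?_⟩
        have := hd' i0
        rw [hi0] at this
        exact this
      exact ((h P hP).mono_w hm).mono_d h1
    · refine ⟨1, one_ne_zero, fun P _ d hd => ?_⟩
      exfalso
      apply hex
      obtain ⟨M', hM', hd'⟩ := hd
      refine ⟨d, M', hM', ?_⟩
      have := hd' i0
      rw [hi0] at this
      exact this
  obtain ⟨FB, hFB, hB'⟩ := hB
  set S := ∑ i, w i with hS
  refine ⟨F0 * ((∏ d ∈ Finset.range (S + 1), FA d) * FB),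
    mul_ne_zero hF0 (mul_ne_zero (Finset.prod_ne_zero_iff.2 fun d _ => hFA d) hFB),
    fun P hP d => ?_⟩
  rw [map_mul, map_mul, map_prod] at hP
  obtain ⟨a1, a2⟩ := h0 P (left_ne_zero_of_mul hP) d
  have hP2 := right_ne_zero_of_mul hP
  refine ⟨fun hd => ?_, a2, fun hd => hB' P (right_ne_zero_of_mul hP2) d hd⟩
  obtain ⟨M, hM | hM, hd'⟩ := hd
  · exact a1 ⟨M, hM, hd'⟩
  have h1 := Finset.prod_ne_zero_iff.1 (left_ne_zero_of_mul hP2)
  refine hA' d P (h1 d ?_) ⟨M, hM, hd'⟩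
  rw [Finset.mem_range, Nat.lt_succ_iff]
  have hM2 : 2 ≤ M := by
    by_contra hcon
    push Not at hcon
    have h2 : M ^ (E + 1) < 2 ^ (E + 1) := pow_lt_pow_left₀ hcon hM.1.le (by omega)
    have h3 := hM.2.2.1
    have h4 : (1 : ℝ) ≤ (k : ℝ) ^ (E + 1 - 1) := one_le_pow₀ hk0
    have h5 : (0 : ℝ) < 2 ^ (E + 1) := by positivity
    nlinarith
  have h2 : (2 : ℝ) * d ≤ M * d := mul_le_mul_of_nonneg_right hM2 (Nat.cast_nonneg _)
  have h3 : ((∑ i, w i : ℕ) : ℝ) = ∑ i, (w i : ℝ) := by push_cast; rfl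
  have h4 : (d : ℝ) < ((∑ i, w i : ℕ) : ℝ) := by
    rw [h3]
    linarith
  have h5 : d < ∑ i, w i := by exact_mod_cast h4
  exact h5.le

/-- the intermediate value theorem for `M + N / A` -/
theorem ivt3 {k a b n N : ℝ} (s : ℕ) (ha : 0 < a) (hk : 0 < k) (hab : a ≤ b)
    (h1 : a + N / (4 * (2 * k / a) ^ s + 1) ≤ n)
    (h2 : n ≤ b + N / (4 * (2 * k / b) ^ s + 1)) :
    ∃ M, a ≤ M ∧ M ≤ b ∧ M + N / (4 * (2 * k / M) ^ s + 1) = n := by
  have hc : ContinuousOn (fun M : ℝ => M + N / (4 * (2 * k / M) ^ s + 1)) (Set.Icc a b) := by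
    apply ContinuousOn.add continuousOn_id
    apply ContinuousOn.div continuousOn_const
    · apply ContinuousOn.add _ continuousOn_const
      apply ContinuousOn.mul continuousOn_const
      apply ContinuousOn.pow
      apply ContinuousOn.div continuousOn_const continuousOn_id
      intro x hx
      exact (lt_of_lt_of_le ha hx.1).ne'
    · intro x hx
      have : 0 < x := lt_of_lt_of_le ha hx.1
      positivity
  obtain ⟨M, hM, hMN⟩ := intermediate_value_Icc hab hc ⟨h1, h2⟩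
  exact ⟨M, hM.1, hM.2, hMN⟩

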