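import Pool.Agent.L7h91.IR.Emp

/-!
# Independence on the simplex for `k ≥ 2 ^ r` points

The analogue of `Pool.Agent.L7h91.IR.Emp` for the independence of the conditions.
-/

set_option autoImplicit false

namespace Pool.Agent.L7h91.IR

open Finset Pool.Agent.TH603.EL Pool.Agent.TH3.IR

/-- the nodal step in the direction `j` is available for the region -/
def ReadyS {ι σ : Type} [Fintype ι] [Fintype σ] [DecidableEq σ] (w : ι → ℕ) (L R : ℝ)
    (μ ν : σ → ℝ) (j : σ) : Prop :=
  ∀ τ : ℝ, 0 < τ → τ < 1 →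
    SurS w (RegS (-(2 * τ * (R - L)) + (2 * (μ j + ν j) + 1) * τ)
      (2 * (1 - τ) * (R - L) - (2 * (μ j + ν j) + 1) * (1 - τ))
      (Function.update (fun i => 2 * τ * (μ i + ν i)) j (4 * τ * (μ j + ν j)))
      (Function.update (fun i => 2 * (1 - τ) * (μ i + ν i)) j (4 * (1 - τ) * (μ j + ν j)))) →
    SurS w (RegS L R μ ν)

/-- flattening, with the left slopes -/
theorem flatS' {ι σ : Type} [Fintype ι] [Fintype σ] [DecidableEq σ] {w : ι → ℕ} {L R : ℝ}
    {μ ν : σ → ℝ} (hμ : ∀ i, 0 ≤ μ i) (hν : ∀ i, 0 ≤ ν i) (hpos : ∀ i, 0 < μ i + ν i) (j : σ)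
    (v : ℤ) (hv : ν j ≤ v) {lam : ℝ} (hlam : 0 < lam) (hl : μ j + v = lam * (μ j + ν j))
    (H : ∀ (L' R' : ℝ) (μ' ν' : σ → ℝ), (∀ i, 0 ≤ μ' i) → (∀ i, 0 ≤ ν' i) →
      R' - L' = lam * (R - L) - lam ^ 2 * (μ j + ν j) →
      (∀ i, μ' i + ν' i =
        Function.update (fun i => lam * (μ i + ν i)) j (lam ^ 2 * (μ j + ν j)) i) →
      (∀ i, i ≠ j → μ' i = μ i) → SurS w (RegS L' R' μ' ν')) :
    SurS w (RegS L R μ ν) := by
  have hs := hpos j
  have hs' : μ j + ν j ≠ 0 := hs.ne'
  have hv' : (0 : ℝ) ≤ (v : ℝ) - ν j := by linarith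
  have hmv : 0 < μ j + v := by rw [hl]; positivity
  have hvn : (v : ℝ) - ν j = (lam - 1) * (μ j + ν j) := by linear_combination hl
  apply SurS_flat hμ hν hpos j v hv hmv
  apply H
  · intro i
    by_cases hi : i = j
    · subst hi
      rw [Function.update_self]
      exact hmv.le
    · rw [Function.update_of_ne hi]
      exact hμ i
  · intro i
    by_cases hi : i = j
    · subst hi
      rw [Function.update_self]
      exact div_nonneg (mul_nonneg hmv.le hv') hs.le
    · rw [Function.update_of_ne hi]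
      exact div_nonneg (add_nonneg (mul_nonneg (hν i) hmv.le) (mul_nonneg (hμ i) hv')) hs.le
  · rw [hl, hvn]
    field_simp
    ring
  · intro i
    by_cases hi : i = j
    · subst hi
      rw [Function.update_self, Function.update_self, Function.update_self, hl, hvn]
      field_simp
      ring
    · rw [Function.update_of_ne hi, Function.update_of_ne hi, Function.update_of_ne hi, hl, hvn]
      field_simp
      ring
  · intro i hi
    rw [Function.update_of_ne hi]

/-- the nodal step and the flattening in the same direction -/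
theorem nodalS' {ι σ : Type} [Fintype ι] [Fintype σ] [DecidableEq σ] {w : ι → ℕ} {L R : ℝ}
    {μ ν : σ → ℝ} (hμ : ∀ i, 0 ≤ μ i) (hν : ∀ i, 0 ≤ ν i) (hpos : ∀ i, 0 < μ i + ν i)
    (j l : σ) (hjl : l ≠ j) (hj : 1 ≤ μ j + ν j)
    (hr : ReadyS w L R μ ν j) {ρ : ℝ} (hρ : 2 ≤ ρ)
    (H : ∀ (L' R' : ℝ) (μ' ν' : σ → ℝ), (∀ i, 0 ≤ μ' i) → (∀ i, 0 ≤ ν' i) →
      R' - L' = ρ * (R - L) - ρ * (μ j + ν j) - ρ / 2 - ρ ^ 2 * (μ j + ν j) →
      (∀ i, μ' i + ν' i =
        Function.update (fun i => ρ * (μ i + ν i)) j (ρ ^ 2 * (μ j + ν j)) i) →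
      (μ l + ν l = 2 * (μ j + ν j) → ∃ v : ℤ, ν' l = v) → SurS w (RegS L' R' μ' ν')) :
    SurS w (RegS L R μ ν) := by
  have _ := hμ
  have _ := hν
  obtain ⟨s, hs⟩ : ∃ s : σ → ℝ, ∀ i, μ i + ν i = s i := ⟨fun i => μ i + ν i, fun i => rfl⟩
  have hs0 : ∀ i, 0 < s i := fun i => by rw [← hs]; exact hpos i
  have hsj1 : 1 ≤ s j := by rw [← hs]; exact hj
  obtain ⟨v, hv0, hv1⟩ := Asm.exists_int (2 * s j * ρ)
  have hsj : 0 < s j := hs0 j
  obtain ⟨τ, hτ⟩ : ∃ τ : ℝ, τ = (2 * s j * ρ - v) / (4 * s j) := ⟨_, rfl⟩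
  have hτv : 4 * τ * s j = 2 * s j * ρ - v := by
    rw [hτ]
    field_simp
  have h0 : 0 < τ := by
    rw [hτ]
    positivity
  have h1 : τ < 1 := by
    by_contra hcon
    push Not at hcon
    have : 4 * s j ≤ 4 * τ * s j := by nlinarith
    linarith
  apply hr τ h0 h1
  simp only [hs]
  have e1 : ∀ i, Function.update (fun i => 2 * τ * s i) j (4 * τ * s j) i +
      Function.update (fun i => 2 * (1 - τ) * s i) j (4 * (1 - τ) * s j) i =
      Function.update (fun i => 2 * s i) j (4 * s j) i := by
    intro i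
    by_cases hi : i = j
    · subst hi
      simp only [Function.update_self]
      ring
    · simp only [Function.update_of_ne hi]
      ring
  refine flatS' (lam := ρ / 2) ?_ ?_ ?_ j v ?_ ?_ ?_ ?_
  · intro i
    by_cases hi : i = j
    · subst hi
      rw [Function.update_self]
      positivity
    · rw [Function.update_of_ne hi]
      have := hs0 i
      positivity
  · intro i
    have h2 : 0 ≤ 1 - τ := by linarith
    by_cases hi : i = j
    · subst hi
      rw [Function.update_self]
      positivity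
    · rw [Function.update_of_ne hi]
      have := hs0 i
      positivity
  · intro i
    rw [e1]
    by_cases hi : i = j
    · subst hi
      rw [Function.update_self]
      positivity
    · rw [Function.update_of_ne hi]
      have := hs0 i
      positivity
  · rw [Function.update_self]
    nlinarith
  · positivity
  · rw [e1, Function.update_self, Function.update_self]
    linarith
  · intro L' R' μ' ν' hμ' hν' hW' hsum' hleft
    have hsum2 : ∀ i, μ' i + ν' i = Function.update (fun i => ρ * s i) j (ρ ^ 2 * s j) i := by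
      intro i
      rw [hsum']
      by_cases hi : i = j
      · subst hi
        simp only [Function.update_self]
        ring
      · simp only [Function.update_of_ne hi]
        ring
    apply H L' R' μ' ν' hμ' hν'
    · rw [hW', e1, Function.update_self, hs]
      ring
    · simpa only [hs] using hsum2
    · intro hl
      rw [hs, hs] at hl
      refine ⟨v, ?_⟩
      have h3 := hsum2 l
      have h4 := hleft l hjl
      rw [Function.update_of_ne hjl] at h3 h4
      rw [h4, hl] at h3
      linarith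

/-- the last flattening -/
theorem lastS {ι σ : Type} [Fintype ι] [Fintype σ] [DecidableEq σ] {w : ι → ℕ} {L R : ℝ}
    {μ ν : σ → ℝ} (hμ : ∀ i, 0 ≤ μ i) (hν : ∀ i, 0 ≤ ν i) (hpos : ∀ i, 0 < μ i + ν i)
    (l : σ) (hv : ∃ v : ℤ, ν l = v) {M : ℝ} (hM : μ l + ν l ≤ M)
    (hint : (∃ N : ℤ, M = N) ∨ ∃ N : ℤ, M - (μ l + ν l) = N)
    (H : SAsm.Good w (M / (μ l + ν l) * (R - L) - (M / (μ l + ν l)) ^ 2 * (μ l + ν l))
      (Function.update (fun i => M / (μ l + ν l) * (μ i + ν i)) l
        ((M / (μ l + ν l)) ^ 2 * (μ l + ν l)))) :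
    SurS w (RegS L R μ ν) := by
  obtain ⟨v, hv⟩ := hv
  have hl0 : μ l + ν l ≠ 0 := (hpos l).ne'
  have hM0 : 0 < M / (μ l + ν l) := div_pos (lt_of_lt_of_le (hpos l) hM) (hpos l)
  rcases hint with ⟨N, hN⟩ | ⟨N, hN⟩
  · -- reflection
    have h1 : SurS w (RegS (-R) (-L) ν μ) := by
      refine flatS' (lam := M / (μ l + ν l)) hν hμ (fun i => by rw [add_comm]; exact hpos i) l
        (N - v) ?_ hM0 ?_ ?_
      · push_cast
        rw [← hN, ← hv]
        linarith
      · push_cast
        rw [← hN, ← hv, add_comm (ν l) (μ l)]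
        field_simp
        ring
      · intro L' R' μ' ν' hμ' hν' hW' hsum' _
        apply H L' R' μ' ν' hμ' hν'
        · rw [hW', add_comm (ν l) (μ l)]
          apply le_of_eq
          ring
        · intro i
          rw [hsum']
          simp only [add_comm (ν _) (μ _)]
    refine h1.comap (-1) (Or.inr rfl) 0 0 ?_
    rintro ⟨x, y⟩ ⟨k1, k2, k3⟩
    simp only at k1 k2 k3
    refine ⟨k1, ?_, ?_⟩
    · simp only [Pi.zero_apply, zero_mul, Finset.sum_const_zero, sub_zero]
      push_cast
      linarith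
    · simp only [Pi.zero_apply, zero_mul, Finset.sum_const_zero, sub_zero]
      push_cast
      linarith
  · refine flatS' (lam := M / (μ l + ν l)) hμ hν hpos l (v + N) ?_ hM0 ?_ ?_
    · push_cast
      rw [← hN, ← hv]
      linarith
    · push_cast
      rw [← hN, ← hv]
      field_simp
      ring
    · intro L' R' μ' ν' hμ' hν' hW' hsum' _
      exact H L' R' μ' ν' hμ' hν' (le_of_eq hW'.symm) hsum'

/-- the nodal step is available -/
theorem readyS_of {ι σ : Type} [Fintype ι] [Fintype σ] [DecidableEq σ] {w : ι → ℕ} {L R : ℝ}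
    {μ ν : σ → ℝ} (hμ : ∀ i, 0 ≤ μ i) (hν : ∀ i, 0 ≤ ν i) (hpos : ∀ i, 0 < μ i + ν i) (j : σ)
    (hj : 5 / 2 ≤ μ j + ν j) : ReadyS w L R μ ν j :=
  fun _ h0 h1 h => SurS_nodal hμ hν hpos j hj h0 h1 h

/-- the induction over the directions; `l` and `q` are the first and the last one -/
theorem runS {ι σ : Type} [Fintype ι] [Fintype σ] [DecidableEq σ] (m : ℕ) {β M : ℝ}
    (hβ : 2 ≤ β) (hβM : M * β = 2 * Fintype.card ι)
    (hM : M ^ 2 ≤ 4 * β ^ (Fintype.card σ - 1) * Fintype.card ι)
    (hM1 : 4 * β ^ (Fintype.card σ - 1) ≤ M)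
    (hint : (∃ N : ℤ, M = N) ∨ ∃ N : ℤ, M - 4 * β ^ (Fintype.card σ - 1) = N)
    (l q : σ) (hlq : l ≠ q) (c : ℕ) :
    ∀ T : Finset σ, l ∉ T → q ∉ T → T.card + c + 2 = Fintype.card σ →
      ∀ (L R : ℝ) (μ ν : σ → ℝ), (∀ i, 0 ≤ μ i) → (∀ i, 0 ≤ ν i) →
        β ^ T.card * (2 * β * m + 2 * β + (c + 1) * (2 + 2 * β)) + 1 ≤ R - L →
        (∀ i, μ i + ν i = sl β l T i) →
        (∀ j, j ≠ l → j ∉ T → ReadyS (fun _ : ι => m) L R μ ν j) →
        SurS (fun _ : ι => m) (RegS L R μ ν) := by
  have hβ0 : 0 < β := by linarith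
  have hβ1 : 1 ≤ β := by linarith
  have hk0 : (0 : ℝ) ≤ Fintype.card ι := Nat.cast_nonneg _
  have hm0 : (0 : ℝ) ≤ m := Nat.cast_nonneg _
  induction c with
  | zero =>
    intro T hl hq hT L R μ ν hμ hν hW hs hready
    have hpos : ∀ i, 0 < μ i + ν i := fun i => by rw [hs]; exact sl_pos hβ0 l T i
    have hcard : Fintype.card σ - 1 = T.card + 1 := by omega
    rw [hcard] at hM hint hM1
    have hsq : μ q + ν q = 2 * β ^ T.card := by
      rw [hs]
      unfold sl
      rw [if_neg (Ne.symm hlq), if_neg hq]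
    have hsl : μ l + ν l = 4 * β ^ T.card := by
      rw [hs]
      unfold sl
      rw [if_pos rfl]
    have hall : ∀ i, i ≠ l → i ≠ q → i ∈ T := by
      intro i h1 h2
      by_contra h3
      have h4 : (insert i (insert l (insert q T))).card = T.card + 3 := by
        rw [Finset.card_insert_of_notMem, Finset.card_insert_of_notMem,
          Finset.card_insert_of_notMem hq]
        · simp [hl, hlq]
        · simp [h1, h2, h3]
      have h5 := Finset.card_le_univ (insert i (insert l (insert q T)))
      omega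
    have hone : 1 ≤ μ q + ν q := by
      rw [hsq]
      have := one_le_pow₀ hβ1 (n := T.card)
      linarith
    refine nodalS' hμ hν hpos q l hlq hone (hready q (Ne.symm hlq) hq) hβ ?_
    intro L' R' μ' ν' hμ' hν' hW' hs' hv
    have hpos' : ∀ i, 0 < μ' i + ν' i := by
      intro i
      rw [hs']
      by_cases hi : i = q
      · subst hi
        rw [Function.update_self]
        have := hpos i
        positivity
      · rw [Function.update_of_ne hi]
        have := hpos i
        positivity
    have hsl' : μ' l + ν' l = 4 * β ^ (T.card + 1) := by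
      rw [hs', Function.update_of_ne hlq, hsl]
      ring
    have ha0 : 0 < 4 * β ^ (T.card + 1) := by positivity
    have hM0 : 0 < M := lt_of_lt_of_le ha0 hM1
    refine lastS (M := M) hμ' hν' hpos' l (hv (by rw [hsl, hsq]; ring))
      (by rw [hsl']; exact hM1) (by rw [hsl']; exact hint) ?_
    intro L'' R'' μ'' ν'' hμ'' hν'' hW'' hs''
    apply SurS_final hμ'' hν''
    · intro i
      rw [hs'', hsl']
      by_cases hi : i = l
      · subst hi
        rw [Function.update_self]
        rw [show (M / (4 * β ^ (T.card + 1))) ^ 2 * (4 * β ^ (T.card + 1)) =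
          M ^ 2 / (4 * β ^ (T.card + 1)) by field_simp]
        rw [div_le_iff₀ ha0]
        linarith
      · rw [Function.update_of_ne hi, hs']
        apply le_of_eq
        by_cases hiq : i = q
        · subst hiq
          rw [Function.update_self, hsq]
          rw [show M / (4 * β ^ (T.card + 1)) * (β ^ 2 * (2 * β ^ T.card)) = M * β / 2 by
            field_simp; ring]
          rw [hβM]
          ring
        · rw [Function.update_of_ne hiq, hs]
          unfold sl
          rw [if_neg hi, if_pos (hall i hi hiq)]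
          rw [show M / (4 * β ^ (T.card + 1)) * (β * (2 * β ^ (T.card + 1))) = M * β / 2 by
            field_simp; ring]
          rw [hβM]
          ring
    · refine le_trans ?_ hW''
      rw [hsl', hW', hsq]
      have e1 : (M / (4 * β ^ (T.card + 1))) ^ 2 * (4 * β ^ (T.card + 1)) =
          M / (4 * β ^ (T.card + 1)) * M := by
        field_simp
      rw [e1, ← mul_sub]
      have hMle : M ≤ 2 * β ^ (T.card + 2) := by
        have h1 : M * M ≤ 2 * β ^ (T.card + 2) * M := by
          calc M * M = M ^ 2 := by ring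
            _ ≤ 4 * β ^ (T.card + 1) * Fintype.card ι := hM
            _ = 2 * β ^ (T.card + 1) * (M * β) := by rw [hβM]; ring
            _ = 2 * β ^ (T.card + 2) * M := by ring
        exact le_of_mul_le_mul_right h1 hM0
      have h2 : 2 * β ^ (T.card + 2) * m ≤ β * (R - L) - β * (2 * β ^ T.card) - β / 2 -
          β ^ 2 * (2 * β ^ T.card) - M := by
        have h3 : β * (β ^ T.card * (2 * β * m + 2 * β + ((0 : ℕ) + 1) * (2 + 2 * β)) + 1) ≤
            β * (R - L) := mul_le_mul_of_nonneg_left hW hβ0.le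
        have h4 : β * (β ^ T.card * (2 * β * m + 2 * β + ((0 : ℕ) + 1) * (2 + 2 * β)) + 1) =
            2 * β ^ (T.card + 2) * m + 2 * β ^ (T.card + 2) + 2 * β ^ (T.card + 1) +
              2 * β ^ (T.card + 2) + β := by
          push_cast
          ring
        have h5 : β * (2 * β ^ T.card) = 2 * β ^ (T.card + 1) := by ring
        have h6 : β ^ 2 * (2 * β ^ T.card) = 2 * β ^ (T.card + 2) := by ring
        rw [h4] at h3
        rw [h5, h6]
        linarith
      calc (Fintype.card ι : ℝ) * m = M / (4 * β ^ (T.card + 1)) * (2 * β ^ (T.card + 2) * m) := by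
            have h7 : (Fintype.card ι : ℝ) = M * β / 2 := by rw [hβM]; ring
            rw [h7]
            field_simp
            ring
        _ ≤ _ := mul_le_mul_of_nonneg_left h2 (by positivity)
  | succ c ih =>
    intro T hl hq hT L R μ ν hμ hν hW hs hready
    have hpos : ∀ i, 0 < μ i + ν i := fun i => by rw [hs]; exact sl_pos hβ0 l T i
    obtain ⟨j, hj, hjl, hjq⟩ : ∃ j, j ∉ T ∧ j ≠ l ∧ j ≠ q := by
      by_contra hcon
      push Not at hcon
      have h1 : (Finset.univ : Finset σ) ⊆ insert l (insert q T) := by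
        intro i _
        rw [Finset.mem_insert, Finset.mem_insert]
        by_cases h2 : i ∈ T
        · exact Or.inr (Or.inr h2)
        · by_cases h3 : i = l
          · exact Or.inl h3
          · exact Or.inr (Or.inl (hcon i h2 h3))
      have h2 := Finset.card_le_card h1
      have h3 := Finset.card_insert_le l (insert q T)
      have h4 := Finset.card_insert_le q T
      rw [Finset.card_univ] at h2
      omega
    have hsj : μ j + ν j = 2 * β ^ T.card := by
      rw [hs]
      unfold sl
      rw [if_neg hjl, if_neg hj]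
    have hone : 1 ≤ μ j + ν j := by
      rw [hsj]
      have := one_le_pow₀ hβ1 (n := T.card)
      linarith
    have hc : (insert j T).card = T.card + 1 := Finset.card_insert_of_notMem hj
    refine nodalS' hμ hν hpos j l (Ne.symm hjl) hone (hready j hjl hj) hβ ?_
    intro L' R' μ' ν' hμ' hν' hW' hs' _
    have hs2 : ∀ i, μ' i + ν' i = sl β l (insert j T) i := by
      intro i
      rw [hs']
      by_cases hi : i = j
      · subst hi
        rw [Function.update_self, hsj]
        unfold sl
        rw [if_neg hjl, if_pos (Finset.mem_insert_self i T), hc]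
        ring
      · rw [Function.update_of_ne hi, hs]
        unfold sl
        rw [hc]
        by_cases hil : i = l
        · rw [if_pos hil, if_pos hil]
          ring
        · rw [if_neg hil, if_neg hil]
          by_cases hiT : i ∈ T
          · rw [if_pos hiT, if_pos (Finset.mem_insert_of_mem hiT)]
            ring
          · have hiT' : i ∉ insert j T := by rw [Finset.mem_insert]; tauto
            rw [if_neg hiT, if_neg hiT']
            ring
    refine ih (insert j T) ?_ ?_ (by omega) L' R' μ' ν' hμ' hν' ?_ hs2 ?_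
    · rw [Finset.mem_insert]
      push Not
      exact ⟨Ne.symm hjl, hl⟩
    · rw [Finset.mem_insert]
      push Not
      exact ⟨Ne.symm hjq, hq⟩
    · rw [hW', hsj, hc]
      have h3 := mul_le_mul_of_nonneg_left hW hβ0.le
      push_cast at h3 ⊢
      have h4 : β * (β ^ T.card * (2 * β * m + 2 * β + ((c : ℝ) + 1 + 1) * (2 + 2 * β)) + 1) =
          β ^ (T.card + 1) * (2 * β * m + 2 * β + ((c : ℝ) + 1) * (2 + 2 * β)) +
            2 * β ^ (T.card + 1) + 2 * β ^ (T.card + 2) + β := by
        ring
      have h5 : β * (2 * β ^ T.card) = 2 * β ^ (T.card + 1) := by ring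
      have h6 : β ^ 2 * (2 * β ^ T.card) = 2 * β ^ (T.card + 2) := by ring
      rw [h4] at h3
      rw [h5, h6]
      linarith
    · intro i hil hiT
      refine readyS_of hμ' hν' (fun i => by rw [hs2]; exact sl_pos hβ0 l _ i) i ?_
      rw [hs2]
      unfold sl
      rw [if_neg hil, if_neg hiT, hc]
      have : β ^ 1 ≤ β ^ (T.card + 1) := pow_le_pow_right₀ hβ1 (by omega)
      rw [pow_one] at this
      linarith

/-- independence on the simplex of size `d` in dimension `card σ + 1 ≥ 3` -/
theorem SurS_simplex2 {ι σ : Type} [Fintype ι] [Fintype σ] (hσ : 2 ≤ Fintype.card σ)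
    (m : ℕ) {β M : ℝ}
    (hβ : 2 ≤ β) (hβM : M * β = 2 * Fintype.card ι)
    (hM : M ^ 2 ≤ 4 * β ^ (Fintype.card σ - 1) * Fintype.card ι)
    (hM1 : 4 * β ^ (Fintype.card σ - 1) ≤ M)
    (hint : (∃ N : ℤ, M = N) ∨ ∃ N : ℤ, M - 4 * β ^ (Fintype.card σ - 1) = N)
    (d : ℕ) (hd : β * (m + Fintype.card σ) + Fintype.card σ + 3 / 2 ≤ d) :
    SurS (fun _ : ι => m) (RegS (0 : ℝ) d (fun _ : σ => 0) (fun _ => 1)) := by
  classical
  obtain ⟨l, q, hlq⟩ : ∃ l q : σ, l ≠ q := by
    have : 1 < Fintype.card σ := by omega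
    exact Fintype.one_lt_card_iff.1 this
  have e1 : RegS ((0 : ℝ) + (0 + ((2 : ℤ) : ℝ)))
      (((d : ℝ) * (0 + ((2 : ℤ) : ℝ)) - 0 * (((2 : ℤ) : ℝ) - 1) -
        (0 + ((2 : ℤ) : ℝ)) * (((2 : ℤ) : ℝ) - 1)) / (0 + 1))
      (Function.update (fun _ : σ => (0 : ℝ)) l (0 + ((2 : ℤ) : ℝ)))
      (Function.update (fun _ : σ => ((1 : ℝ) * (0 + ((2 : ℤ) : ℝ)) + 0 * (((2 : ℤ) : ℝ) - 1)) / (0 + 1)) l
        ((0 + ((2 : ℤ) : ℝ)) * (((2 : ℤ) : ℝ) - 1) / (0 + 1))) =
      RegS (2 : ℝ) (2 * d - 2) (Function.update (fun _ : σ => (0 : ℝ)) l 2) (fun _ => 2) := by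
    congr 1
    · push_cast
      ring
    · push_cast
      ring
    · norm_num
    · funext i
      by_cases hi : i = l
      · subst hi
        rw [Function.update_self]
        norm_num
      · rw [Function.update_of_ne hi]
        norm_num
  refine SurS_flat (fun _ => le_refl _) (fun _ => zero_le_one) (fun _ => by norm_num) l 2
    (by norm_num) (by norm_num) ?_
  rw [e1]
  have hμ : ∀ i, 0 ≤ Function.update (fun _ : σ => (0 : ℝ)) l 2 i := by
    intro i
    by_cases hi : i = l
    · subst hi
      rw [Function.update_self]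
      norm_num
    · rw [Function.update_of_ne hi]
  refine runS m hβ hβM hM hM1 hint l q hlq (Fintype.card σ - 2) ∅ (by simp) (by simp)
    (by rw [Finset.card_empty]; omega) 2 (2 * d - 2) _ _ hμ (fun _ => by norm_num) ?_ ?_ ?_
  · rw [Finset.card_empty, pow_zero]
    have h1 : ((Fintype.card σ - 2 : ℕ) : ℝ) = (Fintype.card σ : ℝ) - 2 := by
      rw [Nat.cast_sub hσ]
      norm_num
    rw [h1]
    linarith
  · intro i
    unfold sl
    rw [Finset.card_empty]
    by_cases hi : i = l
    · subst hi
      rw [Function.update_self, if_pos rfl]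
      norm_num
    · rw [Function.update_of_ne hi, if_neg hi, if_neg (by simp)]
      norm_num
  · intro j _ _ τ h0 h1 h
    exact SN.nodal_pos (by norm_num) hμ (fun _ => by norm_num) j (by norm_num) h0 h1 h

end Pool.Agent.L7h91.IR
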