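import Pool.Agent.L7h91.IR.Bounds

/-!
# Emptiness and independence outside a short window for `k ≥ 2 ^ r` general points of `ℙ ^ r`
-/

set_option autoImplicit false

namespace Pool.Agent.L7h91.IR

open MvPolynomial Pool.Agent.TH3.IR
open scoped LinearAlgebra.Projectivization
open Pool.Agent.H350R3.MG

/-- `k ^ ((r - 1) / r)` -/
noncomputable def kap (r k : ℕ) : ℝ := (k : ℝ) ^ (((r : ℝ) - 1) / (r : ℝ))

theorem window3 {p k : ℕ} (hp : 1 ≤ p) (hk : 2 ^ (p + 2) ≤ k) (w : Fin k → ℕ) :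
    ∃ F : MvPolynomial (Fin k × Fin (p + 1 + 1)) ℂ, F ≠ 0 ∧ ∀ P : Fin k → Fin (p + 1 + 1) → ℂ,
      MvPolynomial.eval (fun q : Fin k × Fin (p + 1 + 1) => P q.1 q.2) F ≠ 0 → ∀ d : ℕ,
        (((kap (p + 2) k + 1 / ((p + 2 : ℕ) : ℝ)) * d < ∑ i, (w i : ℝ) ∨
          ∃ M, Upper (p + 2) k M ∧ M * d < 2 * ∑ i, (w i : ℝ)) → NoForms w P d) ∧
        (((∀ i, k / (kap (p + 2) k - 1 / ((p + 2 : ℕ) : ℝ)) * (w i + (p + 1 : ℕ)) +
            (p + 1 : ℕ) + 3 / 2 ≤ d) ∨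
          ∃ M, Lower (p + 2) k M ∧ ∀ i, 2 * k / M * (w i + (p + 1 : ℕ)) + (p + 1 : ℕ) + 3 / 2 ≤ d) →
          H932R5.SurjAt w P d) := by
  obtain ⟨x, hx2, hx1, hxk, hxκ⟩ := root hk
  have hx0 : 0 < x := by linarith
  have hk1 : 1 ≤ k := le_trans (Nat.one_le_pow _ _ (by norm_num)) hk
  have hk0 : (0 : ℝ) < k := by exact_mod_cast hk1
  have hκ : kap (p + 2) k = x ^ (p + 1) := hxκ.symm
  rw [hκ]
  have hx4 : 4 ≤ x ^ (p + 1) := by
    calc (4 : ℝ) = 2 ^ 2 := by norm_num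
      _ ≤ 2 ^ (p + 1) := pow_le_pow_right₀ (by norm_num) (by omega)
      _ ≤ x ^ (p + 1) := pow_le_pow_left₀ (by norm_num) hx2 _
  have hone : (1 : ℝ) / ((p + 2 : ℕ) : ℝ) ≤ 1 := by
    rw [div_le_one (by positivity)]
    push_cast
    have : (0 : ℝ) ≤ p := Nat.cast_nonneg _
    linarith
  have hone0 : (0 : ℝ) < 1 / ((p + 2 : ℕ) : ℝ) := by positivity
  obtain ⟨F1, hF1, h1⟩ := window2 (E := p + 1) (by omega) hk1 w
  by_cases hk3 : 3 ^ (p + 2) ≤ k
  · obtain ⟨F2, hF2, h2⟩ := window_of (E := p + 1) (by omega) hk3 w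
      (fun m d hd => main_indep (p + 1 + 1) k (by omega) hk3 m d hd)
    refine ⟨F1 * F2, mul_ne_zero hF1 hF2, fun P hP d => ?_⟩
    rw [map_mul] at hP
    obtain ⟨a1, a2⟩ := h1 P (left_ne_zero_of_mul hP) d
    obtain ⟨b1, b2⟩ := h2 P (right_ne_zero_of_mul hP) d
    refine ⟨fun hd => ?_, fun hd => ?_⟩
    · rcases hd with hd | hd
      · apply b1
        have hd0 : (0 : ℝ) ≤ d := Nat.cast_nonneg _
        have e1 : (k : ℝ) ^ ((((p + 1 + 1 : ℕ) : ℝ) - 1) / ((p + 1 + 1 : ℕ) : ℝ)) = x ^ (p + 1) :=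
          hxκ.symm
        rw [e1]
        nlinarith
      · exact a1 hd
    · rcases hd with hd | hd
      · apply b2
        intro i
        have e1 : (k : ℝ) ^ ((1 : ℝ) / ((p + 1 + 1 : ℕ) : ℝ)) = x := hx1.symm
        rw [e1]
        have h3 := hd i
        have hw0 : (0 : ℝ) ≤ w i := Nat.cast_nonneg _
        have hp0 : (0 : ℝ) ≤ p := Nat.cast_nonneg _
        have h4 : x ≤ k / (x ^ (p + 1) - 1 / ((p + 2 : ℕ) : ℝ)) := by
          rw [le_div_iff₀ (by linarith)]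
          have h5 : x * x ^ (p + 1) = k := by rw [← hxk]; ring
          rw [mul_sub, h5]
          have : 0 < x * (1 / ((p + 2 : ℕ) : ℝ)) := by positivity
          linarith
        push_cast at h3 ⊢
        have h6 : x * ((w i : ℝ) + (p + 1)) ≤
            k / (x ^ (p + 1) - 1 / ((p : ℝ) + 2)) * ((w i : ℝ) + (p + 1)) := by
          apply mul_le_mul_of_nonneg_right _ (by linarith)
          push_cast at h4
          exact h4
        linarith
      · exact a2 hd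
  · push Not at hk3
    obtain ⟨M1, hM1, hM1'⟩ := exists_upper hp hk hk3.le hx2 hxk
    obtain ⟨M2, hM2, hM2'⟩ := exists_lower hk3.le hx2 hxk
    refine ⟨F1, hF1, fun P hP d => ?_⟩
    obtain ⟨a1, a2⟩ := h1 P hP d
    refine ⟨fun hd => ?_, fun hd => ?_⟩
    · apply a1
      rcases hd with hd | hd
      · refine ⟨M1, hM1, ?_⟩
        have hd0 : (0 : ℝ) ≤ d := Nat.cast_nonneg _
        have h3 : M1 * d ≤ (2 * x ^ (p + 1) + 2 / ((p : ℝ) + 2)) * d :=
          mul_le_mul_of_nonneg_right hM1' hd0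
        push_cast at hd
        have h4 : (2 * x ^ (p + 1) + 2 / ((p : ℝ) + 2)) * d =
            2 * ((x ^ (p + 1) + 1 / ((p : ℝ) + 2)) * d) := by ring
        linarith
      · exact hd
    · apply a2
      rcases hd with hd | hd
      · refine ⟨M2, hM2, fun i => ?_⟩
        have h3 := hd i
        have hw0 : (0 : ℝ) ≤ w i := Nat.cast_nonneg _
        have hp0 : (0 : ℝ) ≤ p := Nat.cast_nonneg _
        refine le_trans ?_ h3
        have h4 : 2 * k / M2 ≤ k / (x ^ (p + 1) - 1 / ((p + 2 : ℕ) : ℝ)) := by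
          rw [div_le_div_iff₀ hM2.1 (by linarith)]
          push_cast
          have h5 : 2 * (x ^ (p + 1) - 1 / ((p : ℝ) + 2)) ≤ M2 := by
            refine le_trans (le_of_eq ?_) hM2'
            ring
          nlinarith
        have h6 : 2 * k / M2 * ((w i : ℝ) + (p + 1 : ℕ)) ≤
            k / (x ^ (p + 1) - 1 / ((p + 2 : ℕ) : ℝ)) * ((w i : ℝ) + (p + 1 : ℕ)) :=
          mul_le_mul_of_nonneg_right h4 (by positivity)
        linarith
      · exact hd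

theorem main2 {r k : ℕ} (hr : 3 ≤ r) (hk : 2 ^ r ≤ k) (w : Fin k → ℕ) :
    Generally (fun P : Fin k → ℙ ℂ (Fin (r + 1) → ℂ) => ∀ d : ℕ,
      (((kap r k + 1 / (r : ℝ)) * d < ∑ i, (w i : ℝ) ∨
          ∃ M, Upper r k M ∧ M * d < 2 * ∑ i, (w i : ℝ)) →
        pforms d w P = ⊥ ∧ (d + r).choose r ≤ ∑ i, (w i + r - 1).choose r) ∧
      (((∀ i, k / (kap r k - 1 / (r : ℝ)) * (w i + r - 1) + r + 1 / 2 ≤ d) ∨
          ∃ M, Lower r k M ∧ ∀ i, 2 * k / M * (w i + r - 1) + r + 1 / 2 ≤ d) →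
        ∑ i, (w i + r - 1).choose r + Module.finrank ℂ ↥(pforms d w P) = (d + r).choose r)) := by
  obtain ⟨p, rfl⟩ : ∃ p, r = p + 2 := ⟨r - 2, by omega⟩
  obtain ⟨F, hF, h⟩ := window3 (p := p) (by omega) hk w
  refine generally_of_affine F hF fun P hv hP d => ?_
  obtain ⟨h1, h2⟩ := h P hP d
  rw [pforms_cons (E := p + 1)]
  have e1 : ∀ i, w i + (p + 2) - 1 = w i + (p + 1) := fun i => by omega
  have e2 : d + (p + 2) = d + (p + 1) + 1 := by omega
  simp only [e1, e2]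
  refine ⟨fun hd => ?_, fun hd => ?_⟩
  · have h3 := vd_eq_bot (h1 hd)
    refine ⟨h3, ?_⟩
    have h4 := H932R5.finrank_ge d w P
    rw [h3, finrank_bot] at h4
    exact h4
  · refine (h2 ?_).finrank
    have e3 : ∀ (a b : ℝ), a * (b + (p + 1 : ℕ)) + (p + 1 : ℕ) + 3 / 2 =
        a * (b + (p + 2 : ℕ) - 1) + (p + 2 : ℕ) + 1 / 2 := by
      intro a b
      push_cast
      ring
    simp only [e3]
    exact hd

end Pool.Agent.L7h91.IR
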