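import Pool.Agent.L7h91.IR.Exist3
import Pool.Agent.L7h91.IR.Field2

/-!
# Emptiness and independence outside a very short window
-/

set_option autoImplicit false

namespace Pool.Agent.L7h91.IR

open MvPolynomial Pool.Agent.TH3.IR
open scoped LinearAlgebra.Projectivization
open Pool.Agent.H350R3.MG

/-- `1 / (8 k ^ ((r - 3) / r) + 2)` -/
noncomputable def eps (r k : ℕ) : ℝ := 1 / (8 * ((k : ℝ) ^ ((1 : ℝ) / (r : ℝ))) ^ (r - 3) + 2)

/-- the degrees of the emptiness -/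
def EDeg (r k : ℕ) (w : Fin k → ℕ) (d : ℕ) : Prop :=
  (kap r k + 1 / (r : ℝ)) * d < ∑ i, (w i : ℝ) ∨
    (2 ^ r + 2 * r + 2 ≤ k ∧ (kap r k + eps r k) * d < ∑ i, (w i : ℝ)) ∨
    ∃ M, (Upper r k M ∨ Upper3 r k M) ∧ M * d < 2 * ∑ i, (w i : ℝ)

/-- the degrees of the independence -/
def IDeg (r k : ℕ) (w : Fin k → ℕ) (d : ℕ) : Prop :=
  (∀ i, k / (kap r k - 1 / (r : ℝ)) * (w i + r - 1) + r + 1 / 2 ≤ d) ∨
    (2 ^ r + 3 * r + 4 ≤ k ∧ ∀ i, k / (kap r k - eps r k) * (w i + r - 1) + r + 11 / 4 ≤ d) ∨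
    (∃ M, Lower r k M ∧ ∀ i, 2 * k / M * (w i + r - 1) + r + 1 / 2 ≤ d) ∨
    ∃ M, Lower3 r k M ∧ ∀ i, 2 * k / M * (w i + r - 1) + r + 11 / 4 ≤ d

theorem window4 {s k : ℕ} (hk : 2 ^ (s + 3) ≤ k) (w : Fin k → ℕ) :
    ∃ F : MvPolynomial (Fin k × Fin (s + 2 + 1)) ℂ, F ≠ 0 ∧ ∀ P : Fin k → Fin (s + 2 + 1) → ℂ,
      MvPolynomial.eval (fun q : Fin k × Fin (s + 2 + 1) => P q.1 q.2) F ≠ 0 → ∀ d : ℕ,
        (EDeg (s + 3) k w d → NoForms w P d) ∧ (IDeg (s + 3) k w d → H932R5.SurjAt w P d) := by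
  obtain ⟨x, hx2, hx1, hxk, hxκ⟩ := root (p := s + 1) hk
  have hx0 : 0 < x := by linarith
  have hk1 : 1 ≤ k := le_trans (Nat.one_le_pow _ _ (by norm_num)) hk
  have hk0 : (0 : ℝ) < k := by exact_mod_cast hk1
  have hκ : kap (s + 3) k = x ^ (s + 2) := hxκ.symm
  have hε : eps (s + 3) k = 1 / (8 * x ^ s + 2) := by
    unfold eps
    rw [Nat.add_sub_cancel]
    rw [hx1]
  have hxs1 : 1 ≤ x ^ s := one_le_pow₀ (by linarith)
  obtain ⟨F1, hF1, h1⟩ := window3 (p := s + 1) (by omega) hk w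
  obtain ⟨F2, hF2, h2⟩ := window2' (E := s + 2) (by omega) hk1 w
  refine ⟨F1 * F2, mul_ne_zero hF1 hF2, fun P hP d => ?_⟩
  rw [map_mul] at hP
  obtain ⟨a1, a2⟩ := h1 P (left_ne_zero_of_mul hP) d
  obtain ⟨b1, b2, b3⟩ := h2 P (right_ne_zero_of_mul hP) d
  have hd0 : (0 : ℝ) ≤ d := Nat.cast_nonneg _
  refine ⟨fun hd => ?_, fun hd => ?_⟩
  · rcases hd with hd | ⟨hk2, hd⟩ | ⟨M, hM, hd⟩
    · exact a1 (Or.inl hd)
    · apply b1
      obtain ⟨M, hM, hMle⟩ := exists_upper3 (s := s) hx2 hxk (cond_upper hx2 hxk hk2)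
      refine ⟨M, Or.inr hM, ?_⟩
      rw [hκ, hε] at hd
      have h3 : M * d ≤ (2 * x ^ (s + 2) + 1 / (4 * x ^ s + 1)) * d :=
        mul_le_mul_of_nonneg_right hMle hd0
      have h4 : (2 * x ^ (s + 2) + 1 / (4 * x ^ s + 1)) * d =
          2 * ((x ^ (s + 2) + 1 / (8 * x ^ s + 2)) * d) := by
        have e1 : 1 / (4 * x ^ s + 1) = 2 * (1 / (8 * x ^ s + 2)) := by
          have e2 : 8 * x ^ s + 2 = 2 * (4 * x ^ s + 1) := by ring
          rw [e2]
          field_simp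
        rw [e1]
        ring
      linarith
    · exact b1 ⟨M, hM, hd⟩
  · rcases hd with hd | ⟨hk2, hd⟩ | ⟨M, hM, hd⟩ | ⟨M, hM, hd⟩
    · apply a2
      refine Or.inl fun i => ?_
      refine le_trans (le_of_eq ?_) (hd i)
      push_cast
      ring
    · apply b3
      obtain ⟨M, hM, hMle⟩ := exists_lower3 (s := s) hx2 hxk (cond_lower hx2 hxk hk2)
      refine ⟨M, hM, fun i => ?_⟩
      have h3 := hd i
      rw [hκ, hε] at h3
      have hw0 : (0 : ℝ) ≤ w i := Nat.cast_nonneg _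
      have hs0 : (0 : ℝ) ≤ s := Nat.cast_nonneg _
      have hx4 : 4 ≤ x ^ (s + 2) := by
        have : x ^ (s + 2) = x ^ s * (x * x) := by ring
        rw [this]
        nlinarith
      have hε1 : 1 / (8 * x ^ s + 2) ≤ 1 := by
        rw [div_le_one (by positivity)]
        linarith
      have h4 : 2 * k / M ≤ k / (x ^ (s + 2) - 1 / (8 * x ^ s + 2)) := by
        rw [div_le_div_iff₀ hM.1 (by linarith)]
        have h5 : 2 * (x ^ (s + 2) - 1 / (8 * x ^ s + 2)) ≤ M := by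
          refine le_trans (le_of_eq ?_) hMle
          have e2 : 8 * x ^ s + 2 = 2 * (4 * x ^ s + 1) := by ring
          rw [e2]
          field_simp
        nlinarith
      have h6 : 2 * k / M * ((w i : ℝ) + (s + 2 : ℕ)) ≤
          k / (x ^ (s + 2) - 1 / (8 * x ^ s + 2)) * ((w i : ℝ) + (s + 2 : ℕ)) :=
        mul_le_mul_of_nonneg_right h4 (by positivity)
      push_cast at h3 h6 ⊢
      have e3 : (w i : ℝ) + (s + 3) - 1 = w i + (s + 2) := by ring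
      rw [e3] at h3
      linarith
    · apply b2
      refine ⟨M, hM, fun i => ?_⟩
      refine le_trans (le_of_eq ?_) (hd i)
      push_cast
      ring
    · apply b3
      refine ⟨M, hM, fun i => ?_⟩
      refine le_trans (le_of_eq ?_) (hd i)
      push_cast
      ring

theorem main4 {r k : ℕ} (hr : 3 ≤ r) (hk : 2 ^ r ≤ k) (w : Fin k → ℕ) :
    Generally (fun P : Fin k → ℙ ℂ (Fin (r + 1) → ℂ) => ∀ d : ℕ,
      (EDeg r k w d →
        pforms d w P = ⊥ ∧ (d + r).choose r ≤ ∑ i, (w i + r - 1).choose r) ∧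
      (IDeg r k w d →
        ∑ i, (w i + r - 1).choose r + Module.finrank ℂ ↥(pforms d w P) = (d + r).choose r)) := by
  obtain ⟨s, rfl⟩ : ∃ s, r = s + 3 := ⟨r - 3, by omega⟩
  obtain ⟨F, hF, h⟩ := window4 hk w
  refine generally_of_affine F hF fun P hv hP d => ?_
  obtain ⟨h1, h2⟩ := h P hP d
  rw [pforms_cons (E := s + 2)]
  have e1 : ∀ i, w i + (s + 3) - 1 = w i + (s + 2) := fun i => by omega
  have e2 : d + (s + 3) = d + (s + 2) + 1 := by omega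
  simp only [e1, e2]
  refine ⟨fun hd => ?_, fun hd => (h2 hd).finrank⟩
  have h3 := vd_eq_bot (h1 hd)
  refine ⟨h3, ?_⟩
  have h4 := H932R5.finrank_ge d w P
  rw [h3, finrank_bot] at h4
  exact h4

theorem bound_upper3 {N r : ℕ} (hN : 3 ≤ N) {M : ℝ} (hM : Upper N r M ∨ Upper3 N r M) :
    Bound N r (M / 2) := by
  rcases hM with hM | hM
  · exact bound_upper hN hM
  · obtain ⟨E, rfl⟩ : ∃ E, N = E + 1 := ⟨N - 1, by omega⟩
    refine bound_of fun d w h => empty3 (by omega) w d hM ?_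
    linarith

theorem bound_all3 {N r : ℕ} (hN : 3 ≤ N) (hr : 2 ^ N + 2 * N + 2 ≤ r) :
    Bound N r (kap N r + eps N r) := by
  obtain ⟨s, rfl⟩ : ∃ s, N = s + 3 := ⟨N - 3, by omega⟩
  refine bound_of (E := s + 2) fun d w h => ?_
  obtain ⟨F, hF, h1⟩ := window4 (s := s) (by omega) w
  exact ⟨F, hF, fun P hP => (h1 P hP d).1 (Or.inr (Or.inl ⟨hr, by rw [mul_comm]; exact h⟩))⟩

end Pool.Agent.L7h91.IR
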